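import Pool.Agent.W_61ad90_h15.Defs

/-!
# MP_61ad90_lc : cardinal arithmetic

`PF.mk_le`: a partial function of size at most `μ` is determined by its graph, a subset of `A × B` of size at most
`μ`, i.e. the range of a function from `μ.out` (or `To μ`) to `Option (A × B)`.  So `PF A B μ` injects into
the set of functions `To μ → Option (A × B)` (choose a surjection from `To μ` onto the graph, with
`none` as default value) and has size at most `(θ * θ + 1) ^ μ = θ ^ μ = θ`.  (`θ` is infinite: `2 ^ μ ≤ θ ^ μ = θ`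
if `2 ≤ θ`; if `θ < 2` then from `θ ^ μ = θ` and so on; add the hypothesis `ℵ₀ ≤ θ` is already given.)
`pow_succ_of_GCH`: `(ν⁺) ^ ν ≤ (2 ^ ν) ^ ν = 2 ^ (ν * ν) = 2 ^ ν = ν⁺`.
`pow_of_inacc`: `κ` regular, so every function from `μ` to `κ` is bounded: `κ ^ μ ≤ ∑_(α < κ) |α| ^ μ ≤ κ * κ`
(look for `Cardinal.IsInaccessible`, `Cardinal.IsRegular`, `powerlt`, or a lemma like
`Cardinal.IsStrongLimit ... power`).  Concretely: `(To μ → To κ)` injects into `Σ k : To κ, (To μ → Iio k)`,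
each summand has size `#(Iio k) ^ μ ≤ 2 ^ (max #(Iio k) μ) < κ` (strong limit).
`mk_PP`: `PF.mk_le` with `μ = ℵ₀`, `A = Wo` (`mk_Wo : #Wo = ℵ₁`), `B = To ν⁺`, `θ = ν⁺`;
`θ ^ ℵ₀ ≤ θ ^ ν = θ`.
`mk_CC`: `PF.mk_le` with `A = To μ⁺`, `B = K`, `θ = #K`, `pow_of_inacc`.
-/

universe u

open Cardinal Set

namespace W61

open Pool.Agent.W_MP_315f31_lc

theorem mk_To (c : Cardinal.{u}) : #(To c) = c := by
  rw [mk_toType, card_ord]

/-- Subsets of a regular cardinal of smaller size are bounded. -/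
theorem exists_bd_reg {c : Cardinal.{u}} (hc : c.IsRegular) (S : Set (To c)) (hS : #S < c) :
    ∃ δ, ∀ x ∈ S, x < δ := by
  by_contra hcon
  push Not at hcon
  have hcof : IsCofinal S := fun a => by
    obtain ⟨x, hx, hax⟩ := hcon a
    exact ⟨x, hx, hax⟩
  have h1 := Order.cof_le hcof
  rw [Ordinal.cof_toType, hc.cof_ord] at h1
  exact absurd hS (not_lt.2 h1)

theorem mk_Iio_lt_To {c : Cardinal.{u}} (w : To c) : #(Iio w) < c := by
  have h := Cardinal.mk_Iio_lt w (by rw [mk_toType, card_ord]; exact (Ordinal.type_toType _).symm)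
  rwa [mk_To] at h

/-- The number of partial functions. -/
theorem PF.mk_le {A B : Type u} {μ θ : Cardinal.{u}} (hμ : ℵ₀ ≤ μ) (hA : #A ≤ θ) (hB : #B ≤ θ)
    (hθ0 : ℵ₀ ≤ θ) (hθ : θ ^ μ = θ) : #(PF A B μ) ≤ θ := by
  have hcard : ∀ f : PF A B μ, #{p : A × B | f.1 p.1 = some p.2} ≤ μ := by
    intro f
    refine le_trans ?_ f.2
    refine ⟨⟨fun p => ⟨p.1.1, ?_⟩, ?_⟩⟩
    · have h := p.2
      simp only [Set.mem_setOf_eq] at h
      rw [h]
      exact Option.some_ne_none _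
    · rintro ⟨⟨a, b⟩, h⟩ ⟨⟨a', b'⟩, h'⟩ he
      simp only [Subtype.mk.injEq] at he
      subst he
      simp only [Set.mem_setOf_eq] at h h'
      rw [h] at h'
      have := Option.some.inj h'
      subst this
      rfl
  have h1 : #(PF A B μ) ≤ #{t : Set (A × B) // #t ≤ μ} := by
    refine ⟨⟨fun f => ⟨{p : A × B | f.1 p.1 = some p.2}, hcard f⟩, ?_⟩⟩
    intro f g hfg
    apply Subtype.ext
    funext a
    have hs : {p : A × B | f.1 p.1 = some p.2} = {p : A × B | g.1 p.1 = some p.2} :=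
      congrArg Subtype.val hfg
    apply Option.ext
    intro b
    have := Set.ext_iff.1 hs (a, b)
    simpa using this
  refine h1.trans ((Cardinal.mk_bounded_set_le (A × B) μ).trans ?_)
  rw [← hθ]
  apply Cardinal.power_le_power_right
  rw [mk_prod, lift_id, lift_id]
  refine max_le ?_ hθ0
  exact (mul_le_mul' hA hB).trans (Cardinal.mul_eq_self hθ0).le

theorem pow_succ_of_GCH (hG : GCH0.{u}) {ν : Cardinal.{u}} (hν : ℵ₀ ≤ ν) :
    (Order.succ ν) ^ ν = Order.succ ν := by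
  rw [← hG ν hν, ← Cardinal.power_mul, Cardinal.mul_eq_self hν]

theorem pow_of_inacc {κ μ : Cardinal.{u}} (hκ : κ.IsInaccessible) (hμ : μ < κ) (h0 : ℵ₀ ≤ μ) :
    κ ^ μ = κ := by
  have hk0 : ℵ₀ ≤ κ := h0.trans hμ.le
  apply le_antisymm
  · have hb : ∀ f : To μ → To κ, ∃ δ, ∀ i, f i < δ := by
      intro f
      obtain ⟨δ, hδ⟩ := exists_bd_reg hκ.isRegular (Set.range f)
        (mk_range_le.trans_lt (by rw [mk_To]; exact hμ))
      exact ⟨δ, fun i => hδ _ ⟨i, rfl⟩⟩
    choose d hd using hb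
    have h1 : #(To μ → To κ) ≤ #(Σ k : To κ, (To μ → Iio k)) := by
      refine ⟨⟨fun f => ⟨d f, fun i => ⟨f i, hd f i⟩⟩, ?_⟩⟩
      intro f g hfg
      funext i
      have h2 : ∀ (p q : Σ k : To κ, (To μ → Iio k)), p = q → ((p.2 i : To κ)) = (q.2 i : To κ) := by
        rintro p q rfl
        rfl
      exact h2 _ _ hfg
    have e1 : #(To μ → To κ) = κ ^ μ := by
      rw [← Cardinal.power_def, mk_To, mk_To]
    rw [← e1]
    refine h1.trans ?_
    rw [mk_sigma]
    refine (Cardinal.sum_le_sum _ (fun _ : To κ => κ) fun k => ?_).trans ?_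
    · rw [← Cardinal.power_def, mk_To]
      have hk : #(Iio k) < κ := mk_Iio_lt_To k
      have h3 : #(Iio k) ^ μ ≤ 2 ^ (#(Iio k) * μ) := by
        rw [Cardinal.power_mul]
        exact Cardinal.power_le_power_right (Cardinal.cantor _).le
      refine h3.trans (hκ.isStrongLimit.two_power_lt ?_).le
      exact Cardinal.mul_lt_of_lt hk0 hk hμ
    · rw [Cardinal.sum_const, lift_id, lift_id, mk_To]
      exact (Cardinal.mul_eq_self hk0).le
  · exact Cardinal.self_le_power κ (Cardinal.one_le_aleph0.trans h0)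

theorem mk_PP (hG : GCH0.{u}) {ν : Cardinal.{u}} (hν : ℵ₀ ≤ ν) :
    #(PP (Order.succ ν)) ≤ Order.succ ν := by
  have hs : ℵ₀ ≤ Order.succ ν := hν.trans (Order.le_succ ν)
  refine PF.mk_le le_rfl ?_ ?_ hs ?_
  · rw [mk_Wo, ← Cardinal.succ_aleph0]
    exact Order.succ_le_succ hν
  · rw [mk_To]
  · apply le_antisymm
    · calc (Order.succ ν) ^ ℵ₀ ≤ (Order.succ ν) ^ ν :=
            Cardinal.power_le_power_left (Cardinal.aleph0_pos.trans_le hs).ne' hν
        _ = Order.succ ν := pow_succ_of_GCH hG hν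
    · exact Cardinal.self_le_power _ Cardinal.one_le_aleph0

theorem mk_CC {μ : Cardinal.{u}} (hμ : ℵ₀ ≤ μ) {K : Type u} (hK : (#K).IsInaccessible)
    (hμK : μ < #K) : #(CC μ K) ≤ #K := by
  refine PF.mk_le hμ ?_ le_rfl (hμ.trans hμK.le) (pow_of_inacc hK hμK hμ)
  rw [mk_To]
  exact Order.succ_le_of_lt hμK

/-- Cardinals below `κ` are cardinalities of initial segments. -/
theorem exists_seg {κ ν : Cardinal.{u}} (h : ν < κ) : ∃ k : To κ, #(Iio k) = ν := by
  have h1 : ν.ord < Ordinal.type (α := To κ) (· < ·) := by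
    rw [Ordinal.type_toType]
    exact Cardinal.ord_lt_ord.2 h
  refine ⟨Ordinal.enum (α := To κ) (· < ·) ⟨ν.ord, h1⟩, ?_⟩
  have h2 := Ordinal.typein_enum (α := To κ) (· < ·) h1
  have h3 := congrArg Ordinal.card h2
  rw [card_ord, Ordinal.card_typein] at h3
  exact h3

theorem mk_Iio_To {c : Cardinal.{u}} (w : To (Order.succ c)) : #(Iio w) ≤ c :=
  Order.lt_succ_iff.1 (mk_Iio_lt_To w)

/-- Small subsets of a successor cardinal are bounded. -/
theorem exists_bd {μ : Cardinal.{u}} (hμ : ℵ₀ ≤ μ) (S : Set (To (Order.succ μ))) (hS : #S ≤ μ) :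
    ∃ δ, ∀ x ∈ S, x < δ :=
  exists_bd_reg (isRegular_succ hμ) S (Order.lt_succ_iff.2 hS)

end W61
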