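import Pool.Agent.W_61ad90_h15.PCx

/-!
# MP_61ad90_lc : names of small sets are `P`-names

`pnames`: it is enough to find, for every condition `(p, c)`, some `q` with `L2 q c` and some `S` with
`(p, q) ∈ (⨅ a, eqv (τ a) (ofP (S a))).1` (`eq_top_of_dense`, `RO.mem_iSup` or `le_iSup`).  For `a : A` and `p' : P`
the set `E (a, p') = {q | ∃ p'', L1 p'' p' ∧ ((p'', q) ∈ (τ a).1 ∨ (p'', q) ∈ ((τ a)ᶜ).1)}` is open and dense
(given `q0`: either some `(p'', q) ≤ (p', q0)` is in `τ a`, or `(p', q0)` is in `(τ a)ᶜ` by `RO.mem_compl`).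
`dist_closed` for the family indexed by `A × P` (size `≤ μ * μ = μ`) gives `q` in all of them.  Put
`S a = {p' | (p', q) ∈ (τ a).1}`.  By `mem_equiv` one has to see, for `(p1, q1) ≤ (p, q)`:
`(p1, q1) ∈ τ a ↔ (p1, q1) ∈ ofP (S a)`.  From left to right: for `(p', q') ≤ (p1, q1)` take
`p'' ≤ p'` with `(p'', q)` deciding `τ a`; it cannot be in the complement, as `(p'', q')` is below
`(p'', q)` and in `τ a`; so `p'' ∈ S a` and `(p'', q')` is as wanted.  From right to left: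
`RO.mem_of_dense`: `(p', q') ≤ (p1, q1)` has an extension `(p'', q'')` with `p'' ≤ s ∈ S a`, `q'' ≤ q`, so
`(p'', q'') ≤ (s, q) ∈ τ a`.

`mk_DP`: `DP L1 L2` is a subtype of `Set (P × C)`.
-/

universe u

open Cardinal Set

namespace W61

open Pool.Agent.W_MP_315f31_lc

variable {P C : Type u} {L1 : P → P → Prop} {L2 : C → C → Prop} [IsPre L1] [IsPre L2]
  {μ : Cardinal.{u}}

/-- The element of the algebra given by a set of elements of `P`. -/
def ofP (S : Set P) : DP L1 L2 :=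
  toD' (fun r : P × C => ∃ s ∈ S, L1 r.1 s) fun _ _ h1 h2 => by
    obtain ⟨s, hs, h3⟩ := h1
    exact ⟨s, hs, IsPre.trans _ _ _ h2.1 h3⟩

/-- A name of a subset of a set with at most `μ` elements is equal to a `P`-name. -/
theorem pnames (h : PC L1 L2 μ) {A : Type u} (hA : #A ≤ μ) (τ : A → DP L1 L2) :
    (⨆ S : A → Set P, ⨅ a, eqv (τ a) (ofP (L1 := L1) (L2 := L2) (S a))) = ⊤ := by
  classical
  refine eq_top_of_dense fun r0 => ?_
  have hJ : #(A × P) ≤ μ := by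
    rw [Cardinal.mk_prod, Cardinal.lift_id, Cardinal.lift_id]
    exact (mul_le_mul' hA h.mkP).trans (Cardinal.mul_eq_self h.inf).le
  obtain ⟨q, hq, hE⟩ := dist_closed h.clC hJ
    (fun x : A × P => {q : C | ∃ p'', L1 p'' x.2 ∧
      ((show PL (LP L1 L2) from (p'', q)) ∈ (τ x.1).1 ∨
        (show PL (LP L1 L2) from (p'', q)) ∈ ((τ x.1)ᶜ).1)})
    (by
      rintro x q r ⟨p'', h1, h2⟩ hrq
      refine ⟨p'', h1, ?_⟩
      rcases h2 with h2 | h2
      · exact Or.inl (IM.RO.mem_lower h2 ⟨IsPre.refl _, hrq⟩)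
      · exact Or.inr (IM.RO.mem_lower h2 ⟨IsPre.refl _, hrq⟩)) r0.2
    (by
      rintro ⟨a, p'⟩ q hq
      by_cases hc : ∃ t : PL (LP L1 L2), t ≤ (show PL (LP L1 L2) from (p', q)) ∧ t ∈ (τ a).1
      · obtain ⟨t, ht, ht'⟩ := hc
        exact ⟨t.2, ht.2, t.1, ht.1, Or.inl ht'⟩
      · exact ⟨q, IsPre.refl q, p', IsPre.refl p', Or.inr fun t ht ht' => hc ⟨t, ht, ht'⟩⟩)
  refine ⟨(show PL (LP L1 L2) from (r0.1, q)), ⟨IsPre.refl _, hq⟩, ?_⟩
  refine (le_iSup (fun S : A → Set P => ⨅ a, eqv (τ a) (ofP (L1 := L1) (L2 := L2) (S a)))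
    (fun a => {p' | (show PL (LP L1 L2) from (p', q)) ∈ (τ a).1})) ?_
  refine (IM.RO.mem_iInf _ _).2 fun a => ?_
  refine (mem_equiv _ _ _).2 ?_
  rintro ⟨p1, q1⟩ ⟨h1, h1'⟩
  constructor
  · rintro ht ⟨p', q'⟩ ⟨h2, h2'⟩
    obtain ⟨p'', h3, h4⟩ := hE (a, p')
    refine ⟨(p'', q'), ⟨h3, IsPre.refl _⟩, p'', ?_, IsPre.refl _⟩
    rcases h4 with h4 | h4
    · exact h4
    · exact absurd (IM.RO.mem_lower ht
        (show (show PL (LP L1 L2) from (p'', q')) ≤ (show PL (LP L1 L2) from (p1, q1)) from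
          ⟨IsPre.trans _ _ _ h3 h2, h2'⟩))
        (h4 (show PL (LP L1 L2) from (p'', q')) ⟨IsPre.refl _, IsPre.trans _ _ _ h2' h1'⟩)
  · intro ht
    refine IM.RO.mem_of_dense ?_
    rintro ⟨p', q'⟩ ⟨h2, h2'⟩
    obtain ⟨⟨p'', q''⟩, ⟨h3, h3'⟩, s, hs, hs'⟩ := ht (p', q') ⟨h2, h2'⟩
    exact ⟨(p'', q''), ⟨h3, h3'⟩, IM.RO.mem_lower hs
      ⟨hs', IsPre.trans _ _ _ h3' (IsPre.trans _ _ _ h2' h1')⟩⟩

/-- The number of the elements of the algebra. -/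
theorem mk_DP {θ : Cardinal.{u}} (hP : #P ≤ θ) (hC : #C ≤ θ) (hθ : ℵ₀ ≤ θ) :
    #(DP L1 L2) ≤ 2 ^ θ := by
  have h1 : #(DP L1 L2) ≤ #(Set (P × C)) := Cardinal.mk_subtype_le _
  refine h1.trans ?_
  rw [Cardinal.mk_set, Cardinal.mk_prod, Cardinal.lift_id, Cardinal.lift_id]
  exact Cardinal.power_le_power_left two_ne_zero
    ((mul_le_mul' hP hC).trans (Cardinal.mul_eq_self hθ).le)

end W61
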