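import Pool.Agent.W_61ad90_h15.PCx

/-!
# MP_61ad90_lc : the algebra of the product `P × C`

`io r` is the element of the algebra given by a condition `r`; `io r ≤ u ↔ r ∈ u.1` (`le_io_iff`), `io_ne_bot`,
`exists_io_le` (conditions are dense), `io_mono`, `RO.mem_iSup`, `RO.mem_of_dense`, `RO.mem_lower`: see
`Pool/Agent/W_315f31_h40/CoreD.lean` and `Pool/Agent/W_MP_0bf392_lc/RO.lean`.

`nows_DP`: choose `io r ≤ c` and recursively a decreasing sequence `r_n` in `P × C` with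
`io (r_(n+1)) ≤ f n (s n)` (from `io r_n ≤ ⨆ a, f n a`: `RO.mem_iSup`); the product is `σ`-closed: `clP` for the
first coordinates, `clC` with `J = ULift ℕ` for the second ones.

`bdd_dense`: for `p' : P` let `E p' = {q : C | ∃ p'' a, L1 p'' p' ∧ io (p'', q) ≤ f a}`.  It is open, and for
`L1 p' p` dense below `c` (from `io (p', q) ≤ io (p, c) ≤ ⨆ f`).  `dist_closed` for the family
`{p' // L1 p' p}` (size `≤ #P ≤ μ`) gives `q ∈ E p'` for all `p' ≤ p`; choose `a (p')` and put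
`S = range a`.  `io (p, q) ≤ ⨆ a : S, f a`: by `RO.mem_iSup`, for `(p', q') ≤ (p, q)` the condition
`(p'', q') ≤ (p', q')` is in `f (a p')`.

`bdd_all`: `E j = {q | ∃ S, #S ≤ μ ∧ io (p, q) ≤ ⨆ a : S, f j a}` is open and dense below `c` by
`bdd_dense`; `dist_closed` for `J`; the union of the `S j` has size at most `μ * μ = μ`.
`bdd_DP`: `exists_io_le` and `bdd_all`, `exists_bd`.
-/

universe u

open Cardinal Set

namespace W61

open Pool.Agent.W_MP_315f31_lc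

variable {P C : Type u} {L1 : P → P → Prop} {L2 : C → C → Prop} [IsPre L1] [IsPre L2]
  {μ : Cardinal.{u}}

/-- No new `ω`-sequences. -/
theorem nows_DP (h : PC L1 L2 μ) (A : Type u) (f : ℕ → A → DP L1 L2) (c : DP L1 L2) (hc : c ≠ ⊥)
    (hf : ∀ n, c ≤ ⨆ a, f n a) :
    ∃ (b : DP L1 L2) (s : ℕ → A), b ≠ ⊥ ∧ b ≤ c ∧ ∀ n, b ≤ f n (s n) := by
  classical
  obtain ⟨r0, hr0⟩ := exists_io_le hc
  have hr0' : (show PL (LP L1 L2) from r0) ∈ c.1 := le_io_iff.1 hr0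
  have step : ∀ (n : ℕ) (r : {r : PL (LP L1 L2) // r ∈ c.1}), ∃ r' : {r : PL (LP L1 L2) // r ∈ c.1},
      r'.1 ≤ r.1 ∧ ∃ a, r'.1 ∈ (f n a).1 := by
    rintro n ⟨r, hr⟩
    obtain ⟨r', hr', a, ha⟩ := (IM.RO.mem_iSup (f n) r).1 (hf n hr) r le_rfl
    exact ⟨⟨r', IM.RO.mem_lower hr hr'⟩, hr', a, ha⟩
  choose nx hnx1 hnx2 using step
  obtain ⟨x, hx0, hxs⟩ : ∃ x : ℕ → {r : PL (LP L1 L2) // r ∈ c.1}, x 0 = ⟨r0, hr0'⟩ ∧
      ∀ n, x (n + 1) = nx n (x n) :=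
    ⟨fun n => Nat.rec ⟨r0, hr0'⟩ (fun n y => nx n y) n, rfl, fun n => rfl⟩
  have hstep : ∀ n, (x (n + 1)).1 ≤ (x n).1 := by
    intro n
    rw [hxs n]
    exact hnx1 n _
  have hanti : ∀ m n, m ≤ n → (x n).1 ≤ (x m).1 := fun m n hmn =>
    antitone_nat_of_succ_le (f := fun n => (x n).1) hstep hmn
  choose s hs using fun n => hnx2 n (x n)
  obtain ⟨p, hp⟩ := h.clP (fun n => (x n).1.1) (fun n => (hstep n).1)
  obtain ⟨d, hd⟩ := h.clC (ULift.{u} ℕ) (by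
    rw [Cardinal.mk_uLift, Cardinal.mk_nat, Cardinal.lift_aleph0]
    exact h.inf) (fun j => (x j.down).1.2) (fun i j hij => (hanti i.down j.down hij).2) ⟨⟨0⟩⟩
  have hlow : ∀ n, (show PL (LP L1 L2) from (p, d)) ≤ (x n).1 := fun n => ⟨hp n, hd ⟨n⟩⟩
  refine ⟨io (L := LP L1 L2) (p, d), s, io_ne_bot _, ?_, fun n => ?_⟩
  · rw [le_io_iff]
    exact IM.RO.mem_lower (x 0).2 (hlow 0)
  · rw [le_io_iff]
    have h1 := hs n
    rw [← hxs n] at h1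
    exact IM.RO.mem_lower h1 (hlow (n + 1))

/-- For a name of an element of `A`, densely many `q : C` give a set of at most `μ` values. -/
theorem bdd_dense (h : PC L1 L2 μ) {A : Type u} (f : A → DP L1 L2) (p : P) (c : C)
    (hf : (io (L := LP L1 L2) (p, c)) ≤ ⨆ a, f a) :
    ∃ q, L2 q c ∧ ∃ S : Set A, #S ≤ μ ∧ (io (L := LP L1 L2) (p, q)) ≤ ⨆ a : S, f a.1 := by
  classical
  have hf' : (show PL (LP L1 L2) from (p, c)) ∈ (⨆ a, f a).1 := le_io_iff.1 hf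
  have hJ : #{p' // L1 p' p} ≤ μ := (Cardinal.mk_subtype_le _).trans h.mkP
  obtain ⟨q, hq, hE⟩ := dist_closed h.clC hJ
    (fun p' : {p' // L1 p' p} => {q : C | ∃ p'' a, L1 p'' p'.1 ∧
      (show PL (LP L1 L2) from (p'', q)) ∈ (f a).1})
    (by
      rintro p' q r ⟨p'', a, h1, h2⟩ hrq
      exact ⟨p'', a, h1, IM.RO.mem_lower h2 ⟨IsPre.refl _, hrq⟩⟩) c
    (by
      rintro ⟨p', hp'⟩ q hq
      obtain ⟨r, hr, a, ha⟩ := (IM.RO.mem_iSup f _).1 hf' (show PL (LP L1 L2) from (p', q)) ⟨hp', hq⟩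
      exact ⟨r.2, hr.2, r.1, a, hr.1, ha⟩)
  choose p2 a h1 h2 using hE
  refine ⟨q, hq, range a, Cardinal.mk_range_le.trans hJ, ?_⟩
  rw [le_io_iff, IM.RO.mem_iSup]
  intro r hr
  refine ⟨(show PL (LP L1 L2) from (p2 ⟨r.1, hr.1⟩, r.2)), ⟨h1 _, IsPre.refl _⟩,
    ⟨a ⟨r.1, hr.1⟩, mem_range_self _⟩, ?_⟩
  exact IM.RO.mem_lower (h2 ⟨r.1, hr.1⟩) ⟨IsPre.refl _, hr.2⟩

/-- The same for at most `μ` names. -/
theorem bdd_all (h : PC L1 L2 μ) {A J : Type u} (hJ : #J ≤ μ) (f : J → A → DP L1 L2) (p : P) (c : C)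
    (hf : ∀ j, (io (L := LP L1 L2) (p, c)) ≤ ⨆ a, f j a) :
    ∃ q, L2 q c ∧ ∃ S : Set A, #S ≤ μ ∧ ∀ j, (io (L := LP L1 L2) (p, q)) ≤ ⨆ a : S, f j a.1 := by
  classical
  obtain ⟨q, hq, hE⟩ := dist_closed h.clC hJ
    (fun j : J => {q : C | ∃ S : Set A, #S ≤ μ ∧
      (io (L := LP L1 L2) (p, q)) ≤ ⨆ a : S, f j a.1})
    (by
      rintro j q r ⟨S, hS, h1⟩ hrq
      exact ⟨S, hS, (io_mono (L := LP L1 L2) (p := (p, q)) (q := (p, r))
        ⟨IsPre.refl _, hrq⟩).trans h1⟩) c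
    (by
      intro j q hq
      obtain ⟨q', hq', S, hS, h1⟩ := bdd_dense h (f j) p q
        ((io_mono (L := LP L1 L2) (p := (p, c)) (q := (p, q)) ⟨IsPre.refl _, hq⟩).trans (hf j))
      exact ⟨q', hq', S, hS, h1⟩)
  choose S hS h1 using hE
  refine ⟨q, hq, ⋃ j, S j, ?_, fun j => ?_⟩
  · refine (Cardinal.mk_iUnion_le S).trans ?_
    exact (mul_le_mul' hJ (ciSup_le' hS)).trans (Cardinal.mul_eq_self h.inf).le
  · refine (h1 j).trans (iSup_le fun a => ?_)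
    exact le_iSup (fun a : (⋃ j, S j : Set A) => f j a.1) ⟨a.1, mem_iUnion.2 ⟨j, a.2⟩⟩

/-- Functions from a set of size at most `μ` to `μ⁺` are bounded. -/
theorem bdd_DP (h : PC L1 L2 μ) {J : Type u} (hJ : #J ≤ μ) (f : J → To (Order.succ μ) → DP L1 L2)
    (c : DP L1 L2) (hc : c ≠ ⊥) (hf : ∀ j, c ≤ ⨆ a, f j a) :
    ∃ (b : DP L1 L2) (δ : To (Order.succ μ)), b ≠ ⊥ ∧ b ≤ c ∧ ∀ j, b ≤ ⨆ x : Iio δ, f j x.1 := by
  obtain ⟨⟨p, d⟩, hr⟩ := exists_io_le hc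
  obtain ⟨q, hq, S, hS, h1⟩ := bdd_all h hJ f p d (fun j => hr.trans (hf j))
  obtain ⟨δ, hδ⟩ := exists_bd h.inf S hS
  refine ⟨io (L := LP L1 L2) (p, q), δ, io_ne_bot _, ?_, fun j => ?_⟩
  · exact (io_mono (L := LP L1 L2) (p := (p, d)) (q := (p, q)) ⟨IsPre.refl _, hq⟩).trans hr
  · refine (h1 j).trans (iSup_le fun a => ?_)
    exact le_iSup (fun x : Iio δ => f j x.1) ⟨a.1, hδ a.1 a.2⟩

end W61
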