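import Pool.Agent.W_61ad90_h15.Coll
import Pool.Agent.W_61ad90_h15.Prod
import Pool.Agent.W_61ad90_h15.PNames

/-!
# MP_61ad90_lc : GCH in the extension

`gchAt_of`: `S = To θ⁺`, choose a surjection `e` of `S` onto `T` (if `T` is empty then `hF` says `⊥ = ⊤` in `D`,
and everything is trivial), `F' s = F (e s)`; for `s : S`, `#(Iio s) ≤ θ` (`mk_Iio_To`) and `hA` with
`Onto.of_le`.

`gch0` (`#A = ℵ₀`): `T = Set A`, `F S a = ⊤` if `a ∈ S`, else `⊥`; `#T = 2 ^ ℵ₀ = ℵ₀⁺`; `hF`: let `c ≠ ⊥` be the complement of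
the supremum (if it is not `⊥`), apply `nows_DP` (with `pc_PF`) to `f n b`, `b : ULift Bool`, the name of the truth
value of `e n ∈ τ` (`e` an enumeration of `A`), and get `b ≤ c`, `b ≠ ⊥`, and a set `S` with
`b ≤ eqv (τ a) (F S a)` for all `a`.  `hA`: `Onto.native`.
`gch1`: `T = A → Set P`, `F S a = ofP (S a)`, `pnames`; `#T ≤ (2 ^ μ) ^ μ = 2 ^ μ = μ⁺`, `μ = ν⁺`, `θ = μ`.
`hA : Onto D A (To μ)`: `onto1` and `ℵ₁ ≤ #A`.
`gch2`: `T = A → D`, `F = id`; `#D ≤ 2 ^ κ = κ⁺` (`mk_DP`, `mk_PP`, `mk_CC`), `#T ≤ (2 ^ κ) ^ κ = κ⁺`, `θ = κ = #K`.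
`hA : Onto D A (To κ)`: `onto2` and `μ⁺ ≤ #A`.
`gch3`: `T = A → D`, `F = id`, `θ = #A`, `hA`: `Onto.native`.
-/

universe u

open Cardinal Set

namespace W61

open Pool.Agent.W_MP_315f31_lc

/-- GCH for a set `A` in the extension. -/
def GchAt (D : Type u) [CompleteBooleanAlgebra D] (A : Type u) : Prop :=
  ∃ (S : Type u) (_ : LinearOrder S) (_ : WellFoundedLT S)
    (F : S → A → D), (∀ τ : A → D, (⨆ s, ⨅ a, eqv (τ a) (F s a)) = ⊤) ∧ ∀ s : S, Onto D A (Iio s)

theorem gch_eqv_self {D : Type u} [CompleteBooleanAlgebra D] (a : D) : eqv a a = ⊤ := by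
  unfold eqv
  rw [inf_idem, inf_idem, sup_compl_eq_top]

theorem gch_eqv_top {D : Type u} [CompleteBooleanAlgebra D] (a : D) : eqv a ⊤ = a := by
  unfold eqv
  rw [compl_top, inf_bot_eq, sup_bot_eq, inf_top_eq]

theorem gch_eqv_bot {D : Type u} [CompleteBooleanAlgebra D] (a : D) : eqv a ⊥ = aᶜ := by
  unfold eqv
  rw [compl_bot, inf_bot_eq, bot_sup_eq, inf_top_eq]

/-- A family of names indexed by a type `T` with at most `θ⁺` elements. -/
theorem gchAt_of {D : Type u} [CompleteBooleanAlgebra D] {A T : Type u} {θ : Cardinal.{u}}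
    (hθ : ℵ₀ ≤ θ) (hT : #T ≤ Order.succ θ) (F : T → A → D)
    (hF : ∀ τ : A → D, (⨆ s, ⨅ a, eqv (τ a) (F s a)) = ⊤) (hA : Onto D A (To θ)) : GchAt D A := by
  have _ := hθ
  have hO : ∀ s : To (Order.succ θ), Onto D A (Iio s) := fun s =>
    Onto.of_le hA le_rfl (by rw [mk_To]; exact mk_Iio_To s)
  by_cases hne : Nonempty T
  · obtain ⟨e, he⟩ : ∃ e : To (Order.succ θ) → T, Function.Surjective e := by
      rw [← mk_To (Order.succ θ)] at hT
      obtain ⟨i⟩ := Cardinal.le_def _ _ |>.1 hT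
      exact ⟨Function.invFun i, Function.invFun_surjective i.injective⟩
    refine ⟨To (Order.succ θ), inferInstance, inferInstance, fun s => F (e s), ?_, hO⟩
    intro τ
    rw [← hF τ]
    exact he.iSup_comp (fun t => ⨅ a, eqv (τ a) (F t a))
  · rw [not_nonempty_iff] at hne
    have h0 : (⊥ : D) = ⊤ := by
      rw [← hF (fun _ => ⊥), iSup_of_empty]
    have h1 : ∀ x y : D, x = y := fun x y => by
      apply le_antisymm
      · exact le_top.trans (h0.ge.trans bot_le)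
      · exact le_top.trans (h0.ge.trans bot_le)
    exact ⟨To (Order.succ θ), inferInstance, inferInstance, fun _ _ => ⊥, fun _ => h1 _ _, hO⟩

variable {K : Type u} {ν : Cardinal.{u}}

/-- countable sets -/
theorem gch0 (hG : GCH0.{u}) (hν : ℵ₀ ≤ ν) {A : Type u} (h1 : #A = ℵ₀) :
    GchAt (Dm (Order.succ ν) K) A := by
  classical
  obtain ⟨hd⟩ := Cardinal.denumerable_iff.2 h1
  have hT : #(Set A) ≤ Order.succ ℵ₀ := by
    rw [mk_set, h1, hG ℵ₀ le_rfl]
  refine gchAt_of (T := Set A) (θ := ℵ₀) le_rfl hT (fun S a => if a ∈ S then ⊤ else ⊥) ?_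
    (Onto.native (by rw [mk_To, h1]))
  intro τ
  by_contra hne
  have hc : ((⨆ S : Set A, ⨅ a, eqv (τ a) (if a ∈ S then ⊤ else ⊥) : Dm (Order.succ ν) K))ᶜ ≠ ⊥ := by
    intro h
    exact hne (compl_eq_bot.1 h)
  obtain ⟨b, s, hb, hbc, hbs⟩ := nows_DP (pc_PF hG hν K) (ULift.{u} Bool)
    (fun n b => if b.down then τ (Denumerable.ofNat A n) else (τ (Denumerable.ofNat A n))ᶜ)
    _ hc (by
      intro n
      have h2 : (⨆ b : ULift.{u} Bool, (if b.down then τ (Denumerable.ofNat A n)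
          else (τ (Denumerable.ofNat A n))ᶜ : Dm (Order.succ ν) K)) = ⊤ := by
        rw [← top_le_iff, ← sup_compl_eq_top (x := τ (Denumerable.ofNat A n))]
        refine sup_le ?_ ?_
        · refine le_iSup_of_le ⟨true⟩ ?_
          simp
        · refine le_iSup_of_le ⟨false⟩ ?_
          simp
      rw [h2]
      exact le_top)
  apply hb
  have hle : b ≤ ⨆ S : Set A, ⨅ a, eqv (τ a) (if a ∈ S then ⊤ else ⊥) := by
    refine le_iSup_of_le {a | (s (Encodable.encode a)).down = true} ?_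
    refine le_iInf fun a => ?_
    have h3 := hbs (Encodable.encode a)
    rw [Denumerable.ofNat_encode] at h3
    by_cases hs : (s (Encodable.encode a)).down = true
    · rw [if_pos (show a ∈ {a | (s (Encodable.encode a)).down = true} from hs), gch_eqv_top]
      rwa [if_pos hs] at h3
    · rw [if_neg (show a ∉ {a | (s (Encodable.encode a)).down = true} from hs), gch_eqv_bot]
      rwa [if_neg hs] at h3
  rw [← le_bot_iff]
  exact (le_inf hle hbc).trans inf_compl_eq_bot.le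

/-- sets of size between `ℵ₁` and `ν⁺` -/
theorem gch1 (hG : GCH0.{u}) (hν : ℵ₀ ≤ ν) {A : Type u} (h1 : ℵ₁ ≤ #A) (h2 : #A ≤ Order.succ ν) :
    GchAt (Dm (Order.succ ν) K) A := by
  have hμ : ℵ₀ ≤ Order.succ ν := hν.trans (Order.le_succ ν)
  have hT : #(A → Set (PP.{u} (Order.succ ν))) ≤ Order.succ (Order.succ ν) := by
    rw [← power_def, mk_set]
    calc ((2 : Cardinal.{u}) ^ #(PP.{u} (Order.succ ν))) ^ #A
        ≤ ((2 : Cardinal.{u}) ^ (Order.succ ν)) ^ (Order.succ ν) := by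
          refine (power_le_power_left (power_ne_zero _ two_ne_zero) h2).trans ?_
          exact power_le_power_right (power_le_power_left two_ne_zero (mk_PP hG hν))
      _ = Order.succ (Order.succ ν) := by
          rw [← power_mul, mul_eq_self hμ, hG _ hμ]
  refine gchAt_of (θ := Order.succ ν) hμ hT (fun S a => ofP (S a)) ?_ ?_
  · intro τ
    exact pnames (pc_PF hG hν K) h2 τ
  · exact Onto.of_le (onto1 le_rfl (by rw [mk_Wo]; exact aleph0_lt_aleph_one))
      (by rw [mk_Wo]; exact h1) le_rfl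

theorem gch_mk_Dm (hG : GCH0.{u}) (hν : ℵ₀ ≤ ν) (hK : (#K).IsInaccessible) (hνK : ν < #K) :
    #(Dm (Order.succ ν) K) ≤ 2 ^ #K ∧ Order.succ ν < #K := by
  have hμ : ℵ₀ ≤ Order.succ ν := hν.trans (Order.le_succ ν)
  have h1 : Order.succ ν < #K := by
    rw [← hG ν hν]
    exact hK.isStrongLimit.isStrongPrelimit hνK
  refine ⟨mk_DP ((mk_PP hG hν).trans h1.le) (mk_CC hμ hK h1) hK.aleph0_lt.le, h1⟩

/-- sets of size between `ν⁺⁺` and `κ` -/
theorem gch2 (hG : GCH0.{u}) (hν : ℵ₀ ≤ ν) (hK : (#K).IsInaccessible) (hνK : ν < #K) {A : Type u}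
    (h1 : Order.succ (Order.succ ν) ≤ #A) (h2 : #A ≤ #K) : GchAt (Dm (Order.succ ν) K) A := by
  have hμ : ℵ₀ ≤ Order.succ ν := hν.trans (Order.le_succ ν)
  obtain ⟨hD, hμK⟩ := gch_mk_Dm (K := K) hG hν hK hνK
  have hK0 : ℵ₀ ≤ #K := hK.aleph0_lt.le
  have hT : #(A → Dm (Order.succ ν) K) ≤ Order.succ #K := by
    rw [← power_def]
    calc (#(Dm (Order.succ ν) K)) ^ #A
        ≤ ((2 : Cardinal.{u}) ^ #K) ^ #K := by
          refine (power_le_power_right hD).trans ?_
          exact power_le_power_left (power_ne_zero _ two_ne_zero) h2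
      _ = Order.succ #K := by
          rw [← power_mul, mul_eq_self hK0, hG _ hK0]
  refine gchAt_of (θ := #K) hK0 hT (fun S a => S a) ?_ ?_
  · intro τ
    rw [← top_le_iff]
    refine le_iSup_of_le τ ?_
    refine le_iInf fun a => ?_
    rw [gch_eqv_self]
  · exact Onto.of_le (onto2 hμ (by rw [mk_To]; exact Order.lt_succ _))
      (by rw [mk_To]; exact h1) (by rw [mk_To])

/-- sets of size at least `κ⁺` -/
theorem gch3 (hG : GCH0.{u}) (hν : ℵ₀ ≤ ν) (hK : (#K).IsInaccessible) (hνK : ν < #K) {A : Type u}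
    (h1 : Order.succ #K ≤ #A) : GchAt (Dm (Order.succ ν) K) A := by
  obtain ⟨hD, hμK⟩ := gch_mk_Dm (K := K) hG hν hK hνK
  have hKA : #K ≤ #A := (Order.le_succ _).trans h1
  have hA0 : ℵ₀ ≤ #A := hK.aleph0_lt.le.trans hKA
  have hT : #(A → Dm (Order.succ ν) K) ≤ Order.succ #A := by
    rw [← power_def]
    calc (#(Dm (Order.succ ν) K)) ^ #A
        ≤ ((2 : Cardinal.{u}) ^ #A) ^ #A := by
          refine power_le_power_right (hD.trans ?_)
          exact power_le_power_left two_ne_zero hKA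
      _ = Order.succ #A := by
          rw [← power_mul, mul_eq_self hA0, hG _ hA0]
  refine gchAt_of (θ := #A) hA0 hT (fun S a => S a) ?_ (Onto.native (by rw [mk_To]))
  intro τ
  rw [← top_le_iff]
  refine le_iSup_of_le τ ?_
  refine le_iInf fun a => ?_
  rw [gch_eqv_self]

theorem gch_Dm (hG : GCH0.{u}) (hν : ℵ₀ ≤ ν) (hK : (#K).IsInaccessible) (hνK : ν < #K) (A : Type u)
    (hA : Infinite A) : GchAt (Dm (Order.succ ν) K) A := by
  have hA0 : ℵ₀ ≤ #A := aleph0_le_mk A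
  rcases hA0.eq_or_lt with h0 | h0
  · exact gch0 hG hν h0.symm
  have h1 : ℵ₁ ≤ #A := by
    rw [← succ_aleph0]
    exact Order.succ_le_of_lt h0
  rcases le_or_gt #A (Order.succ ν) with h2 | h2
  · exact gch1 hG hν h1 h2
  rcases le_or_gt #A #K with h3 | h3
  · exact gch2 hG hν hK hνK (Order.succ_le_of_lt h2) h3
  · exact gch3 hG hν hK hνK (Order.succ_le_of_lt h3)

end W61
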