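import Pool.Agent.W_61ad90_h15.Rel
import Pool.Agent.W_61ad90_h15.Gch

/-!
# MP_61ad90_lc : the native part
-/

universe u

open Cardinal Set

namespace W61

open Pool.Agent.W_MP_315f31_lc

theorem covN_of {A B D : Type u} [LinearOrder B] [CompleteBooleanAlgebra D] {i : B}
    (h : Onto D A (Iio i)) : ∃ g : A → B → D, Pool.Agent.W_61ad90.CovN g i := by
  classical
  obtain ⟨g, hg1, hg2⟩ := h
  refine ⟨fun a x => if h : x < i then g a ⟨x, h⟩ else ⊥, ?_, ?_⟩
  · intro a x y hxy
    by_cases hx : x < i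
    · by_cases hy : y < i
      · simp only [dif_pos hx, dif_pos hy]
        exact hg1 a _ _ fun h => hxy (congrArg Subtype.val h)
      · simp [hy]
    · simp [hx]
  · intro x hx
    simp only [dif_pos hx]
    exact hg2 ⟨x, hx⟩

theorem le_eqv {D : Type u} [CompleteBooleanAlgebra D] {b x y : D} (h : b ≤ eqv x y) :
    b ⊓ x = b ⊓ y := by
  have key : ∀ x y : D, b ≤ eqv x y → b ⊓ x ≤ b ⊓ y := by
    intro x y h
    refine le_inf inf_le_left ?_
    calc b ⊓ x ≤ eqv x y ⊓ x := inf_le_inf_right _ h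
      _ = (x ⊓ y ⊓ x) ⊔ (xᶜ ⊓ yᶜ ⊓ x) := inf_sup_right _ _ _
      _ ≤ y := by
        refine sup_le (inf_le_left.trans inf_le_right) ?_
        calc xᶜ ⊓ yᶜ ⊓ x ≤ xᶜ ⊓ x := inf_le_inf_right _ inf_le_left
          _ = ⊥ := compl_inf_eq_bot
          _ ≤ y := bot_le
  have h2 : b ≤ eqv y x := by
    refine h.trans (le_of_eq ?_)
    unfold eqv
    rw [inf_comm x y, inf_comm xᶜ yᶜ]
  exact le_antisymm (key x y h) (key y x h2)

/-- The native part. -/
theorem core61_exists (hG : GCH0.{u}) {κ : Cardinal.{u}} (hin : κ.IsInaccessible)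
    (hex : ∃ U : Ultrafilter (Set (To κ ⊕ (To (Order.succ κ) ⊕ To (Order.succ (Order.succ κ))))),
      DCT.IsFNU κ U) :
    ∃ μ : Cardinal.{u}, (⊤ : Dm μ (To κ)) ≠ ⊥ ∧
      Pool.Agent.W_61ad90.Core61 Wo.{u} (To (Order.succ μ)) (To (Order.succ κ))
        (To (Order.succ (Order.succ κ))) (Dm μ (To κ)) := by
  classical
  obtain ⟨k, hk⟩ := exists_relAt hG hin hex
  have hKin : (#(To κ)).IsInaccessible := by
    rw [mk_To]
    exact hin
  have hν0 : ℵ₀ ≤ max ℵ₀ #(Iio k) := le_max_left _ _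
  have hνκ : max ℵ₀ #(Iio k) < #(To κ) := by
    rw [mk_To]
    refine max_lt hin.aleph0_lt ?_
    have h := Cardinal.mk_Iio_lt k (by rw [mk_toType, card_ord]; exact (Ordinal.type_toType _).symm)
    rwa [mk_To] at h
  have hpc : PC (PF.L (A := Wo.{u}) (B := To (mu k)) (μ := ℵ₀))
      (PF.L (A := To (Order.succ (mu k))) (B := To κ) (μ := mu k)) (mu k) :=
    pc_PF hG hν0 (To κ)
  have hmu0 : ℵ₀ ≤ mu k := hpc.inf
  refine ⟨mu k, ?_, ?_⟩
  · let p : PP (mu k) := ⟨fun _ => none, by simp⟩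
    let q : CC (mu k) (To κ) := ⟨fun _ => none, by simp⟩
    intro h
    refine io_ne_bot (L := LP (PF.L (A := Wo.{u}) (B := To (mu k)) (μ := ℵ₀))
      (PF.L (A := To (Order.succ (mu k))) (B := To κ) (μ := mu k))) (p, q) ?_
    exact le_bot_iff.1 (le_top.trans h.le)
  · refine
      { w_ctbl := Wo_countable
        w_unc := ?_
        ne2 := ?_
        dist := ?_
        bdd := ?_
        coll2 := fun i => covN_of (col1_Dm (mu k) (To κ) i)
        coll3 := ?_
        coll4 := fun i => covN_of (Onto.native ?_)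
        gch := ?_
        rel := ?_ }
    · intro h
      obtain ⟨w, hw⟩ := Wo_uncountable Set.univ Set.countable_univ
      exact hw trivial
    · rw [← mk_ne_zero_iff, mk_To]
      exact (lt_of_lt_of_le aleph0_pos (hmu0.trans (Order.le_succ _))).ne'
    · intro A f hf c hc
      exact nows_DP hpc A f c hc fun n => by rw [hf n]; exact le_top
    · intro f hf c hc
      refine bdd_DP hpc (J := Wo.{u}) ?_ f c hc fun w => by rw [hf w]; exact le_top
      rw [mk_Wo, ← succ_aleph0]
      exact Order.succ_le_succ hν0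
    · intro i
      have h := col2_Dm hmu0 (To κ)
      rw [mk_To] at h
      exact covN_of (h i)
    · rw [mk_To]
      exact mk_Iio_To i
    · intro A _ _ hA
      have hGA : GchAt (Dm (mu k) (To κ)) A := gch_Dm hG hν0 hKin hνκ A hA
      obtain ⟨S, h1, h2, F, hF, hS⟩ := hGA
      refine ⟨S, h1, h2, F, ?_, fun i => covN_of (hS i)⟩
      intro g c hc
      have h3 : ∃ s, c ⊓ ⨅ a, eqv (g a) (F s a) ≠ ⊥ := by
        by_contra h
        push Not at h
        apply hc
        have h4 : c = c ⊓ ⨆ s, ⨅ a, eqv (g a) (F s a) := by rw [hF g, inf_top_eq]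
        rw [h4, inf_iSup_eq, iSup_eq_bot]
        exact h
      obtain ⟨s, hs⟩ := h3
      exact ⟨_, s, hs, inf_le_left, fun a => le_eqv (inf_le_right.trans (iInf_le _ a))⟩
    · intro F hF c hc
      obtain ⟨b, x, δ, hb, hbc, hx, hδ⟩ := hk F c hc fun e he => by rw [hF e he]; exact le_top
      exact ⟨b, x, δ, hb, hbc, Cardinal.eq.1 hx, hδ⟩

end W61
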