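import Pool.Agent.W_61ad90_h15.PCx

/-!
# MP_61ad90_lc : the generic functions

`Onto.of_le`: let `e : J → J'` and `e' : A' → A` be injective; put
`g' i' x = ⨆ (i : {i // e i = i'}), g i (e' x)` (at most one `i`), or use `Function.invFun`/a case distinction.
`Onto.native`: with an injection `e : A → J` put `g i x = ⊤` if `e x = i`, `⊥` otherwise.
`PF.ext_gen`: some `i` is not in the domain of `p` (size `≤ μ < #A`); `q` is `p` with the value `x` at `i`
(`Function.update`), its domain has size at most `μ + 1 = μ`.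
`onto1`: `g i x = toD' (fun r => r.1.1 i = some x)`; disjoint (`exists_mem` of the meet, then extend twice);
`⨆ i, g i x = ⊤` by `eq_top_of_dense` and `PF.ext_gen`.  `onto2`: the same.
See the proof of `Core.coreD` (part coll) in `Pool/Agent/W_315f31_h40/CoreD.lean`.
`col1_Dm`: `onto1` gives `Onto (Dm μ K) Wo (To μ)` (`ℵ₀ < #Wo = ℵ₁`), and `#(Iio w) ≤ μ` (`mk_Iio_To`).
`col2_Dm`: `onto2` gives `Onto (Dm μ K) (To μ⁺) K`.
-/

universe u

open Cardinal Set

namespace W61

open Pool.Agent.W_MP_315f31_lc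

theorem Onto.of_le {D : Type u} [CompleteBooleanAlgebra D] {J A J' A' : Type u} (h : Onto D J A)
    (hJ : #J ≤ #J') (hA : #A' ≤ #A) : Onto D J' A' := by
  classical
  obtain ⟨e⟩ := hJ
  obtain ⟨e'⟩ := hA
  obtain ⟨g, h1, h2⟩ := h
  refine ⟨fun i' x => if h : ∃ i, e i = i' then g h.choose (e' x) else ⊥, ?_, ?_⟩
  · intro i' x y hxy
    by_cases hi : ∃ i, e i = i'
    · simp only [dif_pos hi]
      exact h1 _ _ _ fun h3 => hxy (e'.injective h3)
    · simp only [dif_neg hi, inf_bot_eq]
  · intro x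
    rw [eq_top_iff, ← h2 (e' x)]
    refine iSup_le fun i => ?_
    refine le_iSup_of_le (e i) ?_
    have hi : ∃ i', e i' = e i := ⟨i, rfl⟩
    simp only [dif_pos hi]
    have h3 : hi.choose = i := e.injective hi.choose_spec
    rw [h3]

theorem Onto.native {D : Type u} [CompleteBooleanAlgebra D] {J A : Type u} (h : #A ≤ #J) :
    Onto D J A := by
  classical
  obtain ⟨e⟩ := h
  refine ⟨fun i x => if e x = i then ⊤ else ⊥, ?_, ?_⟩
  · intro i x y hxy
    by_cases h1 : e x = i
    · have h2 : ¬ e y = i := fun h2 => hxy (e.injective (h1.trans h2.symm))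
      simp only [if_neg h2, inf_bot_eq]
    · simp only [if_neg h1, bot_inf_eq]
  · intro x
    rw [eq_top_iff]
    refine le_iSup_of_le (e x) ?_
    simp

theorem PF.ext_gen {A B : Type u} {μ : Cardinal.{u}} (hμ : ℵ₀ ≤ μ) (hA : μ < #A) (p : PF A B μ)
    (x : B) : ∃ (q : PF A B μ) (i : A), PF.L q p ∧ q.1 i = some x := by
  classical
  obtain ⟨i, hi⟩ : ∃ i, p.1 i = none := by
    by_contra hcon
    push Not at hcon
    have h1 : #A ≤ #{a // p.1 a ≠ none} :=
      mk_le_of_injective (f := fun a => (⟨a, hcon a⟩ : {a // p.1 a ≠ none}))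
        fun a b hab => congrArg Subtype.val hab
    exact absurd (h1.trans p.2) (not_le.2 hA)
  have h2 : #{a // Function.update p.1 i (some x) a ≠ none} ≤ μ := by
    have h3 : {a | Function.update p.1 i (some x) a ≠ none} ⊆ {a | p.1 a ≠ none} ∪ {i} := by
      intro a ha
      by_cases hai : a = i
      · exact Or.inr hai
      · left
        have ha' : Function.update p.1 i (some x) a ≠ none := ha
        rw [Function.update_of_ne hai] at ha'
        exact ha'
    refine (mk_le_mk_of_subset h3).trans ((mk_union_le _ _).trans ?_)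
    rw [mk_singleton]
    exact add_le_of_le hμ p.2 (one_le_aleph0.trans hμ)
  refine ⟨⟨Function.update p.1 i (some x), h2⟩, i, ?_, ?_⟩
  · intro a b hab
    have hai : a ≠ i := by
      rintro rfl
      rw [hi] at hab
      exact absurd hab (by simp)
    show Function.update p.1 i (some x) a = some b
    rw [Function.update_of_ne hai]
    exact hab
  · exact Function.update_self i (some x) p.1

variable {A B : Type u} {μ : Cardinal.{u}}

/-- The generic function in the first coordinate. -/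
theorem onto1 {C : Type u} {L2 : C → C → Prop} [IsPre L2] (hμ : ℵ₀ ≤ μ) (hA : μ < #A) :
    Onto (DP (PF.L (A := A) (B := B) (μ := μ)) L2) A B := by
  have hm : ∀ (i : A) (x : B) (p q : PF A B μ × C), p.1.1 i = some x →
      LP (PF.L (A := A) (B := B) (μ := μ)) L2 q p → q.1.1 i = some x :=
    fun i x p q h1 h2 => h2.1 i x h1
  refine ⟨fun i x => toD' (L := LP (PF.L (A := A) (B := B) (μ := μ)) L2)
    (fun r => r.1.1 i = some x) (hm i x), ?_, ?_⟩
  · intro i x y hxy
    by_contra hne
    obtain ⟨p, hp1, hp2⟩ := exists_mem hne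
    obtain ⟨r, hr, hr'⟩ := hp1 p ⟨IsPre.refl p.1, IsPre.refl p.2⟩
    obtain ⟨t, ht, ht'⟩ := hp2 r hr
    have h1 : t.1.1 i = some x := hm i x r t hr' ht
    have h2 : t.1.1 i = some y := ht'
    rw [h1] at h2
    exact hxy (Option.some.inj h2)
  · intro x
    refine eq_top_of_dense fun p => ?_
    obtain ⟨q, i, hq, hi⟩ := PF.ext_gen hμ hA p.1 x
    refine ⟨(q, p.2), ⟨hq, IsPre.refl p.2⟩, ?_⟩
    exact (le_iSup (fun i => toD' (L := LP (PF.L (A := A) (B := B) (μ := μ)) L2)
      (fun r => r.1.1 i = some x) (hm i x)) i) (mem_toD' (hm i x) hi)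

/-- The generic function in the second coordinate. -/
theorem onto2 {P : Type u} {L1 : P → P → Prop} [IsPre L1] (hμ : ℵ₀ ≤ μ) (hA : μ < #A) :
    Onto (DP L1 (PF.L (A := A) (B := B) (μ := μ))) A B := by
  have hm : ∀ (i : A) (x : B) (p q : P × PF A B μ), p.2.1 i = some x →
      LP L1 (PF.L (A := A) (B := B) (μ := μ)) q p → q.2.1 i = some x :=
    fun i x p q h1 h2 => h2.2 i x h1
  refine ⟨fun i x => toD' (L := LP L1 (PF.L (A := A) (B := B) (μ := μ)))
    (fun r => r.2.1 i = some x) (hm i x), ?_, ?_⟩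
  · intro i x y hxy
    by_contra hne
    obtain ⟨p, hp1, hp2⟩ := exists_mem hne
    obtain ⟨r, hr, hr'⟩ := hp1 p ⟨IsPre.refl p.1, IsPre.refl p.2⟩
    obtain ⟨t, ht, ht'⟩ := hp2 r hr
    have h1 : t.2.1 i = some x := hm i x r t hr' ht
    have h2 : t.2.1 i = some y := ht'
    rw [h1] at h2
    exact hxy (Option.some.inj h2)
  · intro x
    refine eq_top_of_dense fun p => ?_
    obtain ⟨q, i, hq, hi⟩ := PF.ext_gen hμ hA p.2 x
    refine ⟨(p.1, q), ⟨IsPre.refl p.1, hq⟩, ?_⟩
    exact (le_iSup (fun i => toD' (L := LP L1 (PF.L (A := A) (B := B) (μ := μ)))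
      (fun r => r.2.1 i = some x) (hm i x)) i) (mem_toD' (hm i x) hi)

/-- The elements of `μ⁺` are covered by `ω₁`. -/
theorem col1_Dm (μ : Cardinal.{u}) (K : Type u) (w : To (Order.succ μ)) :
    Onto (Dm μ K) Wo.{u} (Iio w) := by
  have h1 : Onto (Dm μ K) Wo.{u} (To μ) := onto1 le_rfl (by
    rw [mk_Wo]
    exact aleph0_lt_aleph_one)
  refine h1.of_le le_rfl ?_
  rw [mk_To]
  exact mk_Iio_To w

/-- The elements of `κ⁺` are covered by `μ⁺`. -/
theorem col2_Dm {μ : Cardinal.{u}} (hμ : ℵ₀ ≤ μ) (K : Type u) (w : To (Order.succ #K)) :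
    Onto (Dm μ K) (To (Order.succ μ)) (Iio w) := by
  have h1 : Onto (Dm μ K) (To (Order.succ μ)) K := onto2 hμ (by
    rw [mk_To]
    exact Order.lt_succ μ)
  exact h1.of_le le_rfl (mk_Iio_To w)

end W61
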