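import Pool.Agent.W_61ad90_h15.Defs

/-!
# MP_61ad90_lc : closure and distributivity

`dist_closed`: choose a well-order on `J` (`WellOrderingRel`, or `exists_wellOrder`; the instance can be chosen
locally).  Define `s : J → C` by well-founded recursion: `s j` is a condition `q ∈ E j` with `L q c` and
`∀ i < j, L q (s i)` if there is one, and `c` otherwise.  By strong induction on `j` there always is one: the
`s i`, `i < j`, are decreasing (for `i ≤ i' < j`, `L (s i') (s i)`), so by `cl` for the type `Iio j` (size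
`≤ #J ≤ μ`; if it is empty use `c`) they have a lower bound `d`, `L d c`, and by density of `E j` below `c`
there is `q ∈ E j`, `L q d`.  Finally take a lower bound of all `s j` (if `J` is empty take `c`); it is in
`E j` because `E j` is open.

`PF.closed`: the union of the chain: `f a = some b` iff `∃ j, (s j).1 a = some b` (values are unique because
any two members of the chain are comparable); the domain is the union of at most `μ` sets of size at most `μ`
(`Cardinal.mk_iUnion_le` or `Cardinal.mk_sUnion_le`, `μ * μ = μ`).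
`PF.closedN`: the same for `ℕ` (or transfer to `ULift ℕ` and use `PF.closed`; first
`∀ m ≤ n, L (s n) (s m)` by induction).
-/

universe u

open Cardinal Set

namespace W61

open Pool.Agent.W_MP_315f31_lc

/-- Closed posets are distributive. -/
theorem dist_closed {C : Type u} {L : C → C → Prop} [IsPre L] {μ : Cardinal.{u}}
    (cl : ∀ (J : Type u) [LinearOrder J] [WellFoundedLT J], #J ≤ μ → ∀ s : J → C,
      (∀ i j, i ≤ j → L (s j) (s i)) → Nonempty J → ∃ c, ∀ j, L c (s j))
    {J : Type u} (hJ : #J ≤ μ) (E : J → Set C) (ho : ∀ j, Opn L (E j)) (c : C)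
    (hd : ∀ j, Dns L c (E j)) : ∃ q, L q c ∧ ∀ j, q ∈ E j := by
  classical
  obtain ⟨hlin, hwf⟩ := exists_wellOrder J
  have wf : WellFounded (fun a b : J => a < b) := wellFounded_lt
  let F : (j : J) → ((i : J) → i < j → C) → C := fun j ih =>
    if h : ∃ q, q ∈ E j ∧ L q c ∧ ∀ i (hi : i < j), L q (ih i hi) then h.choose else c
  let s : J → C := wf.fix F
  have hs : ∀ j, s j = F j (fun i _ => s i) := fun j => wf.fix_eq F j
  have key : ∀ j, s j ∈ E j ∧ L (s j) c ∧ ∀ i, i < j → L (s j) (s i) := by
    intro j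
    refine wf.induction (C := fun j => s j ∈ E j ∧ L (s j) c ∧ ∀ i, i < j → L (s j) (s i)) j ?_
    intro j ih
    have hd1 : ∃ d, L d c ∧ ∀ i, i < j → L d (s i) := by
      by_cases hne : Nonempty (Iio j)
      · obtain ⟨d, hd⟩ := cl (Iio j) ((Cardinal.mk_set_le _).trans hJ) (fun i => s i.1) (by
          intro i i' hii
          rcases hii.eq_or_lt with h | h
          · rw [h]
            exact IsPre.refl _
          · exact (ih i'.1 i'.2).2.2 i.1 h) hne
        obtain ⟨i0⟩ := hne
        exact ⟨d, IsPre.trans _ _ _ (hd i0) (ih i0.1 i0.2).2.1, fun i hi => hd ⟨i, hi⟩⟩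
      · exact ⟨c, IsPre.refl c, fun i hi => absurd ⟨⟨i, hi⟩⟩ hne⟩
    obtain ⟨d, hdc, hdi⟩ := hd1
    obtain ⟨q, hqd, hqE⟩ := hd j d hdc
    have hex : ∃ q, q ∈ E j ∧ L q c ∧ ∀ i (_ : i < j), L q (s i) :=
      ⟨q, hqE, IsPre.trans _ _ _ hqd hdc, fun i hi => IsPre.trans _ _ _ hqd (hdi i hi)⟩
    have hsj : s j = hex.choose := by
      rw [hs]
      exact dif_pos hex
    rw [hsj]
    exact hex.choose_spec
  by_cases hne : Nonempty J
  · obtain ⟨q, hq⟩ := cl J hJ s (by
      intro i j hij
      rcases hij.eq_or_lt with h | h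
      · rw [h]
        exact IsPre.refl _
      · exact (key j).2.2 i h) hne
    refine ⟨q, ?_, fun j => ho j _ _ (key j).1 (hq j)⟩
    obtain ⟨j⟩ := hne
    exact IsPre.trans _ _ _ (hq j) (key j).2.1
  · exact ⟨c, IsPre.refl c, fun j => absurd ⟨j⟩ hne⟩

/-- Chains of partial functions have lower bounds. -/
theorem PF.closed {A B : Type u} {μ : Cardinal.{u}} (hμ : ℵ₀ ≤ μ) {J : Type u} [LinearOrder J]
    (hJ : #J ≤ μ) (s : J → PF A B μ) (hs : ∀ i j, i ≤ j → PF.L (s j) (s i)) (hne : Nonempty J) :
    ∃ c, ∀ j, PF.L c (s j) := by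
  classical
  have huniq : ∀ a b b' i j, (s i).1 a = some b → (s j).1 a = some b' → b = b' := by
    intro a b b' i j h1 h2
    rcases le_total i j with h | h
    · have h3 := hs i j h a b h1
      rw [h2] at h3
      exact (Option.some.inj h3).symm
    · have h3 := hs j i h a b' h2
      rw [h1] at h3
      exact Option.some.inj h3
  let f : A → Option B := fun a => if h : ∃ b, ∃ j, (s j).1 a = some b then some h.choose else none
  have hf : ∀ a b j, (s j).1 a = some b → f a = some b := by
    intro a b j h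
    have hex : ∃ b, ∃ j, (s j).1 a = some b := ⟨b, j, h⟩
    have h1 : f a = some hex.choose := dif_pos hex
    obtain ⟨i, hi⟩ := hex.choose_spec
    rw [h1, huniq a _ b i j hi h]
  have hdom : {a | f a ≠ none} ⊆ ⋃ j, {a | (s j).1 a ≠ none} := by
    intro a ha
    by_cases hex : ∃ b, ∃ j, (s j).1 a = some b
    · obtain ⟨b, j, h⟩ := hex
      refine mem_iUnion.2 ⟨j, ?_⟩
      show (s j).1 a ≠ none
      rw [h]
      exact Option.some_ne_none b
    · exact absurd (dif_neg hex) ha
  have hcard : #{a // f a ≠ none} ≤ μ := by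
    have h1 : #({a | f a ≠ none} : Set A) ≤ #(⋃ j, {a | (s j).1 a ≠ none} : Set A) :=
      Cardinal.mk_le_mk_of_subset hdom
    have h2 : #(⋃ j, {a | (s j).1 a ≠ none} : Set A) ≤ μ := by
      refine (Cardinal.mk_iUnion_le _).trans ?_
      refine (mul_le_mul' hJ (ciSup_le' fun j => (s j).2)).trans (le_of_eq ?_)
      exact Cardinal.mul_eq_self hμ
    exact h1.trans h2
  exact ⟨⟨f, hcard⟩, fun j a b h => hf a b j h⟩

theorem PF.closedN {A B : Type u} (s : ℕ → PF A B ℵ₀) (hs : ∀ n, PF.L (s (n + 1)) (s n)) :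
    ∃ c, ∀ n, PF.L c (s n) := by
  have hmono : ∀ m n, m ≤ n → PF.L (s n) (s m) := by
    intro m n hmn
    induction n, hmn using Nat.le_induction with
    | base => exact IsPre.refl _
    | succ n hmn ih => exact IsPre.trans _ _ _ (hs n) ih
  let hlin : LinearOrder (ULift.{u} ℕ) := LinearOrder.lift' ULift.down ULift.down_injective
  obtain ⟨c, hc⟩ := PF.closed (μ := ℵ₀) le_rfl (J := ULift.{u} ℕ)
    (by rw [Cardinal.mk_uLift, Cardinal.mk_nat, Cardinal.lift_aleph0]) (fun n => s n.down)
    (fun i j hij => hmono _ _ hij) ⟨⟨0⟩⟩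
  exact ⟨c, fun n => hc ⟨n⟩⟩

end W61
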