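import Pool.Agent.W_61ad90_h15.Prod

/-!
# MP_61ad90_lc : codes of names of ordinals below `μ⁺`

`code_dense`: `bdd_dense` and `exists_bd`.  `code_mono`: `io_mono`, `iSup` over a larger index set.
`code_all`: let `V` be the set of the codes.  For `v ∈ V` let `E v = {q | ∃ δ, (q, δ) ∈ v}`; it is open (`code_mono`) and dense
below `c` (`code_dense`; for `q0 ≤ c` the hypothesis `hf` holds for `(p, q0)` by `io_mono`).  `dist_closed` for `V` gives `q`
in all of them; choose `δ_v` for `v ∈ V` and a bound `δ` of all `δ_v` (`exists_bd`, `#V ≤ μ`).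
`exists_code`: by GCH and inaccessibility: `#(CC (mu k) (To κ)) ≤ κ` (`mk_CC`; `mu k < κ`), `#(To (mu k)⁺) ≤ κ`, so
`#(Set (CC .. × To ..)) ≤ 2 ^ κ = κ⁺`, and the product over `k : To κ` has size at most `(κ⁺) ^ κ = (2 ^ κ) ^ κ = κ⁺`
(`Cardinal.mk_pi`, `Cardinal.prod_le_prod`, `Cardinal.prod_const`).
-/

universe u

open Cardinal Set

namespace W61

open Pool.Agent.W_MP_315f31_lc

section

variable {P C : Type u} {L1 : P → P → Prop} {L2 : C → C → Prop} [IsPre L1] [IsPre L2]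
  {μ : Cardinal.{u}}

/-- The code of a name of an element of `N`: the set of the pairs `(q, δ)` such that `(p, q)` forces the
element to be smaller than `δ`. -/
def code {N : Type u} [LinearOrder N] (p : P) (f : N → DP L1 L2) : Set (C × N) :=
  {z | (io (L := LP L1 L2) (p, z.1)) ≤ ⨆ ξ : Iio z.2, f ξ.1}

theorem code_dense (h : PC L1 L2 μ) (f : To (Order.succ μ) → DP L1 L2) (p : P) (c : C)
    (hf : (io (L := LP L1 L2) (p, c)) ≤ ⨆ a, f a) :
    ∃ q δ, L2 q c ∧ (q, δ) ∈ code (L1 := L1) (L2 := L2) p f := by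
  obtain ⟨q, hq, S, hS, hle⟩ := bdd_dense h f p c hf
  obtain ⟨δ, hδ⟩ := exists_bd h.inf S hS
  refine ⟨q, δ, hq, ?_⟩
  exact hle.trans (iSup_le fun a => le_iSup (fun ξ : Iio δ => f ξ.1) ⟨a.1, hδ a.1 a.2⟩)

theorem code_mono {N : Type u} [LinearOrder N] (p : P) (f : N → DP L1 L2) {q q' : C} {δ δ' : N}
    (h : (q, δ) ∈ code (L1 := L1) (L2 := L2) p f) (hq : L2 q' q) (hδ : δ ≤ δ') :
    (q', δ') ∈ code (L1 := L1) (L2 := L2) p f := by
  have h1 : (io (L := LP L1 L2) (p, q)) ≤ ⨆ ξ : Iio δ, f ξ.1 := h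
  show (io (L := LP L1 L2) (p, q')) ≤ ⨆ ξ : Iio δ', f ξ.1
  refine (io_mono (L := LP L1 L2) ⟨IsPre.refl p, hq⟩).trans (h1.trans (iSup_le fun ξ => ?_))
  exact le_iSup (fun ξ : Iio δ' => f ξ.1) ⟨ξ.1, lt_of_lt_of_le ξ.2 hδ⟩

/-- If the names `f i` have at most `μ` codes, they have a common bound. -/
theorem code_all (h : PC L1 L2 μ) {I : Type u} (f : I → To (Order.succ μ) → DP L1 L2) (p : P) (c : C)
    (hf : ∀ i, (io (L := LP L1 L2) (p, c)) ≤ ⨆ a, f i a)
    (hV : #(range fun i => code (L1 := L1) (L2 := L2) p (f i)) ≤ μ) :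
    ∃ q δ, L2 q c ∧ ∀ i, (q, δ) ∈ code (L1 := L1) (L2 := L2) p (f i) := by
  have hE : ∃ q, L2 q c ∧ ∀ v : (range fun i => code (L1 := L1) (L2 := L2) p (f i)),
      q ∈ {q : C | ∃ δ, (q, δ) ∈ v.1} := by
    refine dist_closed h.clC hV
      (fun v : (range fun i => code (L1 := L1) (L2 := L2) p (f i)) => {q : C | ∃ δ, (q, δ) ∈ v.1})
      ?_ c ?_
    · rintro ⟨v, i, rfl⟩ q q' ⟨δ, hδ⟩ hq
      exact ⟨δ, code_mono p (f i) hδ hq le_rfl⟩
    · rintro ⟨v, i, rfl⟩ q hq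
      obtain ⟨q', δ, hq', hδ⟩ := code_dense h (f i) p q
        ((io_mono (L := LP L1 L2) ⟨IsPre.refl p, hq⟩).trans (hf i))
      exact ⟨q', hq', δ, hδ⟩
  obtain ⟨q, hq, hqE⟩ := hE
  choose d hd using hqE
  obtain ⟨δ, hδ⟩ := exists_bd h.inf (range d) (mk_range_le.trans hV)
  refine ⟨q, δ, hq, fun i => ?_⟩
  exact code_mono p (f i) (hd ⟨_, i, rfl⟩) (IsPre.refl q) (hδ _ ⟨_, rfl⟩).le

end

/-- All codes together can be coded by elements of `κ⁺`. -/
theorem exists_code (hG : GCH0.{u}) {κ : Cardinal.{u}} (hκ : κ.IsInaccessible) :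
    ∃ c : (∀ k : To κ, Set (CC (mu k) (To κ) × To (Order.succ (mu k)))) → To (Order.succ κ),
      Function.Injective c := by
  have hK : #(To κ) = κ := mk_To κ
  have h0 : ℵ₀ ≤ κ := hκ.aleph0_lt.le
  have hmu : ∀ k : To κ, mu k < κ := by
    intro k
    have h1 : max ℵ₀ #(Iio k) < κ := max_lt hκ.aleph0_lt (mk_Iio_toType_ord_lt k)
    exact hκ.isStrongLimit.isSuccLimit.succ_lt h1
  have hmu0 : ∀ k : To κ, ℵ₀ ≤ mu k := fun k =>
    (le_max_left _ _).trans (Order.le_succ _)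
  have hcc : ∀ k : To κ, #(CC (mu k) (To κ)) ≤ κ := by
    intro k
    have h1 := mk_CC (μ := mu k) (hmu0 k) (K := To κ) (by rw [hK]; exact hκ) (by rw [hK]; exact hmu k)
    rwa [hK] at h1
  have hto : ∀ k : To κ, #(To (Order.succ (mu k))) ≤ κ := by
    intro k
    rw [mk_To]
    exact Order.succ_le_of_lt (hmu k)
  have hset : ∀ k : To κ, #(Set (CC (mu k) (To κ) × To (Order.succ (mu k)))) ≤ Order.succ κ := by
    intro k
    rw [mk_set, ← hG κ h0]
    refine power_le_power_left two_ne_zero ?_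
    rw [mk_prod, lift_id, lift_id]
    exact (mul_le_mul' (hcc k) (hto k)).trans (mul_eq_self h0).le
  have hall : #(∀ k : To κ, Set (CC (mu k) (To κ) × To (Order.succ (mu k)))) ≤
      #(To (Order.succ κ)) := by
    rw [mk_pi, mk_To]
    refine (prod_le_prod _ (fun _ => Order.succ κ) hset).trans ?_
    rw [prod_const, lift_id, lift_id, hK, pow_succ_of_GCH hG h0]
  obtain ⟨e⟩ := hall
  exact ⟨e, e.injective⟩

end W61
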