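import Pool.Agent.W_315f31_h40.Cards
import Pool.Agent.W_61ad90_h32.Core61

/-!
# MP_61ad90_lc : the native part

`κ` is a supercompact cardinal, GCH holds, `ν < κ` is a suitable infinite cardinal, `μ = ν⁺`.  `P` is the set
of the countable partial functions from `ω₁` to `μ`, `C` the set of the partial functions of size at most `μ`
from `μ⁺` to `κ`, and `D` is the regular open algebra of `P × C`.

In the extension `μ⁺` is `ω₂`, `κ` has size `ω₂`, `κ⁺ = ω₃`, `κ⁺⁺ = ω₄`.
-/

universe u

open Cardinal Set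

namespace W61

open Pool.Agent.W_MP_315f31_lc

/-- The well-order of type `c`. -/
abbrev To (c : Cardinal.{u}) : Type u := c.ord.ToType

/-- The value of an equivalence. -/
def eqv {D : Type u} [CompleteBooleanAlgebra D] (a b : D) : D := (a ⊓ b) ⊔ (aᶜ ⊓ bᶜ)

/-- GCH in the universe `Type u`. -/
def GCH0 : Prop := ∀ μ : Cardinal.{u}, ℵ₀ ≤ μ → (2 : Cardinal.{u}) ^ μ = Order.succ μ

/-- The algebra `D` gives a name of a partial function from `J` onto `A`. -/
def Onto (D : Type u) [CompleteBooleanAlgebra D] (J A : Type u) : Prop :=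
  ∃ g : J → A → D, (∀ i x y, x ≠ y → g i x ⊓ g i y = ⊥) ∧ ∀ x, (⨆ i, g i x) = ⊤

end W61
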