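import Pool.Agent.W_61ad90_h15.Core

/-!
# MP_61ad90_lc : partial functions, the abstract properties of the two collapses
-/

universe u

open Cardinal Set

namespace W61

open Pool.Agent.W_MP_315f31_lc

/-- The partial functions from `A` to `B` of size at most `μ`. -/
def PF (A B : Type u) (μ : Cardinal.{u}) : Type u :=
  {f : A → Option B // #{a // f a ≠ none} ≤ μ}

/-- `q` extends `p`. -/
def PF.L {A B : Type u} {μ : Cardinal.{u}} (q p : PF A B μ) : Prop :=
  ∀ a b, p.1 a = some b → q.1 a = some b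

instance {A B : Type u} {μ : Cardinal.{u}} : IsPre (PF.L (A := A) (B := B) (μ := μ)) where
  refl _ _ _ h := h
  trans _ _ _ h1 h2 a b h := h1 a b (h2 a b h)

/-- The order of a product. -/
def LP {P C : Type u} (L1 : P → P → Prop) (L2 : C → C → Prop) (q p : P × C) : Prop :=
  L1 q.1 p.1 ∧ L2 q.2 p.2

instance {P C : Type u} (L1 : P → P → Prop) (L2 : C → C → Prop) [IsPre L1] [IsPre L2] :
    IsPre (LP L1 L2) where
  refl p := ⟨IsPre.refl p.1, IsPre.refl p.2⟩
  trans p q r h1 h2 := ⟨IsPre.trans _ _ _ h1.1 h2.1, IsPre.trans _ _ _ h1.2 h2.2⟩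

/-- The abstract properties of the two posets: `P` is `σ`-closed of size at most `μ`, `C` is closed under
decreasing sequences of length at most `μ`. -/
structure PC {P C : Type u} (L1 : P → P → Prop) (L2 : C → C → Prop) (μ : Cardinal.{u}) : Prop where
  inf : ℵ₀ ≤ μ
  mkP : #P ≤ μ
  clP : ∀ s : ℕ → P, (∀ n, L1 (s (n + 1)) (s n)) → ∃ p, ∀ n, L1 p (s n)
  clC : ∀ (J : Type u) [LinearOrder J] [WellFoundedLT J], #J ≤ μ → ∀ s : J → C,
    (∀ i j, i ≤ j → L2 (s j) (s i)) → Nonempty J → ∃ c, ∀ j, L2 c (s j)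

/-- `E` is open. -/
def Opn {C : Type u} (L : C → C → Prop) (E : Set C) : Prop := ∀ p q, p ∈ E → L q p → q ∈ E

/-- `E` is dense below `c`. -/
def Dns {C : Type u} (L : C → C → Prop) (c : C) (E : Set C) : Prop :=
  ∀ p, L p c → ∃ q, L q p ∧ q ∈ E

/-- The algebra of the product. -/
abbrev DP {P C : Type u} (L1 : P → P → Prop) (L2 : C → C → Prop) [IsPre L1] [IsPre L2] : Type u :=
  DD (LP L1 L2)

/-- The successor of the cardinality of the initial segment of `k` (made infinite). -/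
noncomputable def mu {K : Type u} [LinearOrder K] (k : K) : Cardinal.{u} :=
  Order.succ (max ℵ₀ #(Iio k))

/-- The collapse of `μ` to `ω₁`. -/
abbrev PP (μ : Cardinal.{u}) : Type u := PF Wo.{u} (To μ) ℵ₀

/-- The collapse of `K` to `μ⁺`. -/
abbrev CC (μ : Cardinal.{u}) (K : Type u) : Type u := PF (To (Order.succ μ)) K μ

/-- The algebra of `P × C`. -/
abbrev Dm (μ : Cardinal.{u}) (K : Type u) : Type u :=
  DP (PF.L (A := Wo.{u}) (B := To μ) (μ := ℵ₀)) (PF.L (A := To (Order.succ μ)) (B := K) (μ := μ))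

/-- The relation for a single `μ`: for every name `φ` of a colouring of the injective sequences of elements
of `K2 = κ⁺⁺` by elements of `μ⁺` there are a set `x` of size `μ⁺` and a bound `δ` for the colours of the
sequences of elements of `x`. -/
def RelAt (μ : Cardinal.{u}) (K K2 : Type u) : Prop :=
  ∀ (φ : (ℕ → K2) → To (Order.succ μ) → Dm μ K) (c : Dm μ K), c ≠ ⊥ →
    (∀ e, Function.Injective e → c ≤ ⨆ ξ, φ e ξ) →
    ∃ (b : Dm μ K) (x : Set K2) (δ : To (Order.succ μ)), b ≠ ⊥ ∧ b ≤ c ∧ #x = #(To (Order.succ μ)) ∧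
      ∀ e, Function.Injective e → (∀ n, e n ∈ x) → b ≤ ⨆ ξ : Iio δ, φ e ξ.1

end W61
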