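import Pool.Agent.W_61ad90_h15.Dist
import Pool.Agent.W_61ad90_h15.Card

/-!
# MP_61ad90_lc : the two collapses have the abstract properties
-/

universe u

open Cardinal Set

namespace W61

open Pool.Agent.W_MP_315f31_lc

/-- The two collapses have the abstract properties. -/
theorem pc_PF (hG : GCH0.{u}) {ν : Cardinal.{u}} (hν : ℵ₀ ≤ ν) (K : Type u) :
    PC (PF.L (A := Wo.{u}) (B := To (Order.succ ν)) (μ := ℵ₀))
      (PF.L (A := To (Order.succ (Order.succ ν))) (B := K) (μ := Order.succ ν)) (Order.succ ν) where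
  inf := hν.trans (Order.le_succ ν)
  mkP := mk_PP hG hν
  clP := PF.closedN
  clC J _ _ hJ s hs hne := PF.closed (hν.trans (Order.le_succ ν)) hJ s hs hne

end W61
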