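import Pool.Agent.W_61ad90_h15.UF
import Pool.Agent.W_61ad90_h15.Card

/-!
# MP_61ad90_lc : normal ultrafilters, the sizes of the traces

See the plan in `UF.lean`.
-/

universe u

open Cardinal Set

namespace W61

open Pool.Agent.W_MP_315f31_lc

variable {κ : Cardinal.{u}} {A : Type u} {U : Ultrafilter (Set A)}

/-- The traces of a smaller set are smaller. -/
theorem UF.lower (hU : DCT.IsFNU κ U) {B1 B2 : Type u} (i1 : B1 → A) (i2 : B2 → A)
    (h1 : Function.Injective i1) (h2 : Function.Injective i2) (h : #B1 < #B2) :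
    ∀ᶠ x in (U : Filter (Set A)), #(i1 ⁻¹' x) < #(i2 ⁻¹' x) := by
  classical
  by_contra hcon
  have hP := Ultrafilter.eventually_not.2 hcon
  have hne : Nonempty B2 := by
    rw [← Cardinal.mk_ne_zero_iff]
    exact (pos_of_gt h).ne'
  obtain ⟨ξ0⟩ := hne
  have he : ∀ x : Set A, ¬ #(i1 ⁻¹' x) < #(i2 ⁻¹' x) → Nonempty (↥(i2 ⁻¹' x) ↪ ↥(i1 ⁻¹' x)) :=
    fun x hx => (Cardinal.le_def _ _).1 (not_lt.1 hx)
  obtain ⟨J, hJ⟩ : ∃ J : Set A → B2 → A, ∀ (x : Set A) (hx : ¬ #(i1 ⁻¹' x) < #(i2 ⁻¹' x)) (ξ : B2)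
      (hξ : i2 ξ ∈ x), J x ξ = i1 ((he x hx).some ⟨ξ, hξ⟩ : ↥(i1 ⁻¹' x)) :=
    ⟨fun x ξ => if hx : (¬ #(i1 ⁻¹' x) < #(i2 ⁻¹' x)) ∧ i2 ξ ∈ x then
      i1 ((he x hx.1).some ⟨ξ, hx.2⟩ : ↥(i1 ⁻¹' x)) else i2 ξ0, fun x hx ξ hξ => dif_pos ⟨hx, hξ⟩⟩
  have hex : ∀ ξ : B2, ∃ b : B1, ∀ᶠ x in (U : Filter (Set A)), J x ξ = i1 b := by
    intro ξ
    have hfine : ∀ᶠ x in (U : Filter (Set A)), i2 ξ ∈ x := hU.fine (i2 ξ)
    have h3 : ∀ᶠ x in (U : Filter (Set A)), J x ξ ∈ x := by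
      filter_upwards [hP, hfine] with x hx hξ
      rw [hJ x hx ξ hξ]
      exact ((he x hx).some ⟨ξ, hξ⟩ : ↥(i1 ⁻¹' x)).2
    obtain ⟨a, ha⟩ := hU.normal (fun x => J x ξ) h3
    have ha' : ∀ᶠ x in (U : Filter (Set A)), J x ξ = a := ha
    obtain ⟨x, hx, hξ, hxa⟩ := (hP.and (hfine.and ha')).exists
    rw [hJ x hx ξ hξ] at hxa
    rw [← hxa] at ha'
    exact ⟨_, ha'⟩
  choose j hj using hex
  have hinj : Function.Injective j := by
    intro ξ η hξη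
    have hf1 : ∀ᶠ x in (U : Filter (Set A)), i2 ξ ∈ x := hU.fine (i2 ξ)
    have hf2 : ∀ᶠ x in (U : Filter (Set A)), i2 η ∈ x := hU.fine (i2 η)
    obtain ⟨x, hx, hξ, hη, h3, h4⟩ := (hP.and (hf1.and (hf2.and ((hj ξ).and (hj η))))).exists
    rw [hξη, ← h4, hJ x hx ξ hξ, hJ x hx η hη] at h3
    have h5 := (he x hx).some.injective (Subtype.ext (h1 h3))
    exact congrArg (fun z : ↥(i2 ⁻¹' x) => (z : B2)) h5
  exact absurd (Cardinal.mk_le_of_injective hinj) (not_le.2 h)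

/-- A well-order all of whose initial segments have size at most `μ`. -/
theorem UF.seg {S : Type u} [LinearOrder S] [WellFoundedLT S] {μ : Cardinal.{u}}
    (h : ∀ s : S, #(Iio s) ≤ μ) : #S ≤ Order.succ μ := by
  have h1 : Ordinal.type (fun a b : S => a < b) ≤ (Order.succ μ).ord := by
    refine le_of_forall_lt fun o ho => ?_
    obtain ⟨s, hs⟩ := Ordinal.typein_surj (fun a b : S => a < b) ho
    rw [Cardinal.lt_ord, ← hs, Ordinal.card_typein]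
    exact Order.lt_succ_of_le (h s)
  have h2 := Ordinal.card_le_card h1
  rwa [Ordinal.card_type, Cardinal.card_ord] at h2

/-- The traces of the successor are at most the successor of the trace. -/
theorem UF.upper (hU : DCT.IsFNU κ U) (hκ : ℵ₀ < κ) {B1 B2 : Type u} [LinearOrder B2]
    [WellFoundedLT B2] (i1 : B1 → A) (i2 : B2 → A) (h1 : Function.Injective i1)
    (h2 : Function.Injective i2) (h : ∀ b : B2, #(Iio b) ≤ #B1) (hB : Infinite B1) :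
    ∀ᶠ x in (U : Filter (Set A)), #(i2 ⁻¹' x) ≤ Order.succ #(i1 ⁻¹' x) := by
  classical
  have he : ∀ b : B2, Nonempty (↥(Iio b) ↪ B1) := fun b => (Cardinal.le_def _ _).1 (h b)
  obtain ⟨F, hF⟩ : ∃ F : A → A → A, ∀ (b η : B2) (hη : η < b),
      F (i2 b) (i2 η) = i1 ((he b).some ⟨η, hη⟩) := by
    refine ⟨fun a a' => if hx : ∃ p : B2 × B2, p.2 < p.1 ∧ i2 p.1 = a ∧ i2 p.2 = a' then
      i1 ((he hx.choose.1).some ⟨hx.choose.2, hx.choose_spec.1⟩) else a, fun b η hη => ?_⟩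
    have hx : ∃ p : B2 × B2, p.2 < p.1 ∧ i2 p.1 = i2 b ∧ i2 p.2 = i2 η := ⟨(b, η), hη, rfl, rfl⟩
    refine (dif_pos hx).trans ?_
    have key : ∀ (b' η' : B2) (h' : η' < b'), b' = b → η' = η →
        i1 ((he b').some ⟨η', h'⟩) = i1 ((he b).some ⟨η, hη⟩) := by
      rintro b' η' h' rfl rfl
      rfl
    exact key _ _ _ (h2 hx.choose_spec.2.1) (h2 hx.choose_spec.2.2)
  filter_upwards [UF.closed2 hU hκ F] with x hx
  refine UF.seg (S := ↥(i2 ⁻¹' x)) fun s => ?_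
  refine Cardinal.mk_le_of_injective (f := fun t : Iio s =>
    (⟨(he s.1).some ⟨t.1.1, t.2⟩, ?_⟩ : ↥(i1 ⁻¹' x))) ?_
  · have h3 := hx (i2 s.1) s.2 (i2 t.1.1) t.1.2
    rw [hF s.1 t.1.1 t.2] at h3
    exact h3
  · intro t t' htt
    have h3 : (he s.1).some ⟨t.1.1, t.2⟩ = (he s.1).some ⟨t'.1.1, t'.2⟩ :=
      congrArg (fun z : ↥(i1 ⁻¹' x) => (z : B1)) htt
    have h4 := (he s.1).some.injective h3
    exact Subtype.ext (Subtype.ext (congrArg (fun z : ↥(Iio s.1) => (z : B2)) h4))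

/-- Both together. -/
theorem UF.trace (hU : DCT.IsFNU κ U) (hκ : ℵ₀ < κ) {c : Cardinal.{u}} (hc : ℵ₀ ≤ c)
    (i1 : To c → A) (i2 : To (Order.succ c) → A) (h1 : Function.Injective i1)
    (h2 : Function.Injective i2) :
    ∀ᶠ x in (U : Filter (Set A)), #(i2 ⁻¹' x) = Order.succ #(i1 ⁻¹' x) := by
  have hinf : Infinite (To c) := by
    rw [Cardinal.infinite_iff, mk_To]
    exact hc
  have hl := UF.lower hU i1 i2 h1 h2 (by rw [mk_To, mk_To]; exact Order.lt_succ c)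
  have hu := UF.upper hU hκ i1 i2 h1 h2 (fun b => by rw [mk_To]; exact mk_Iio_To b) hinf
  filter_upwards [hl, hu] with x hx hx'
  exact le_antisymm hx' (Order.succ_le_of_lt hx)

end W61
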