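import Pool.Agent.W_61ad90_h15.Code
import Pool.Agent.W_61ad90_h15.UF2

/-!
# MP_61ad90_lc : the relation

Suppose it fails for all `k`: there are `φ k`, `c k` which are a counterexample.  Choose conditions
`io (p k, q k) ≤ c k`.  Let `U` be a fine normal `κ`-complete ultrafilter on `Set (To κ ⊕ (To κ⁺ ⊕ To κ⁺⁺))`.  For
`e : ℕ → To κ⁺⁺` let `F e : To κ⁺` be the code (`exists_code`) of the family `k ↦ code (p k) (φ k e)`.  Almost all `x` are
closed under `F` (`UF.closed_seq`) and satisfy `UF.trace` for `κ, κ⁺` and for `κ⁺, κ⁺⁺`, `UF.inf`, `#x < κ`.  Fix such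
an `x`, put `ν = #(trace of x on To κ) < κ`, infinite, choose `k` with `#(Iio k) = ν` (`exists_seg`), so
`mu k = ν⁺`, the trace of `x` on `To κ⁺` has size `mu k` and the trace `H` of `x` on `To κ⁺⁺` has size `(mu k)⁺`.
For `e : ℕ → H`, `F e` is in the trace on `To κ⁺`, and `code (p k) (φ k e)` is determined by `F e`, so there are at most
`mu k` codes.  `code_all` with `I = {e : ℕ → To κ⁺⁺ // Injective e ∧ ∀ n, e n ∈ H}` gives `q ≤ q k` and
`δ` with `io (p k, q) ≤ ⨆ ξ < δ, φ k e ξ` for all these `e`: contradiction.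
-/

universe u

open Cardinal Set

namespace W61

open Pool.Agent.W_MP_315f31_lc

/-- A counterexample, in terms of conditions. -/
theorem not_relAt {μ : Cardinal.{u}} {K K2 : Type u} (h : ¬ RelAt μ K K2) :
    ∃ (φ : (ℕ → K2) → To (Order.succ μ) → Dm μ K) (p : PP μ) (q : CC μ K),
      (∀ e, Function.Injective e → (io (L := LP (PF.L (A := Wo.{u}) (B := To μ) (μ := ℵ₀))
        (PF.L (A := To (Order.succ μ)) (B := K) (μ := μ))) (p, q)) ≤ ⨆ ξ, φ e ξ) ∧
      ∀ (q' : CC μ K) (x : Set K2) (δ : To (Order.succ μ)), PF.L q' q →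
        #x = #(To (Order.succ μ)) → ∃ e, Function.Injective e ∧ (∀ n, e n ∈ x) ∧
          ¬ (io (L := LP (PF.L (A := Wo.{u}) (B := To μ) (μ := ℵ₀))
            (PF.L (A := To (Order.succ μ)) (B := K) (μ := μ))) (p, q')) ≤ ⨆ ξ : Iio δ, φ e ξ.1 := by
  unfold RelAt at h
  push Not at h
  obtain ⟨φ, c, hc, hφ, hbad⟩ := h
  obtain ⟨⟨p, q⟩, hpq⟩ := exists_io_le hc
  refine ⟨φ, p, q, fun e he => hpq.trans (hφ e he), fun q' x δ hq' hx => ?_⟩
  obtain ⟨e, he1, he2, he3⟩ := hbad (io (p, q')) x δ (io_ne_bot _)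
    ((io_mono (L := LP (PF.L (A := Wo.{u}) (B := To μ) (μ := ℵ₀))
            (PF.L (A := To (Order.succ μ)) (B := K) (μ := μ)))
            (p := (p, q)) (q := (p, q')) ⟨IsPre.refl p, hq'⟩).trans hpq) hx
  exact ⟨e, he1, he2, he3⟩

/-- For some `k` the relation holds. -/
theorem exists_relAt (hG : GCH0.{u}) {κ : Cardinal.{u}} (hin : κ.IsInaccessible)
    (hex : ∃ U : Ultrafilter (Set (To κ ⊕ (To (Order.succ κ) ⊕ To (Order.succ (Order.succ κ))))),
      DCT.IsFNU κ U) :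
    ∃ k : To κ, RelAt (mu k) (To κ) (To (Order.succ (Order.succ κ))) := by
  classical
  by_contra hcon
  push Not at hcon
  have hκ0 : ℵ₀ < κ := hin.aleph0_lt
  choose φ p q hφ hbad using fun k => not_relAt (hcon k)
  obtain ⟨code0, hcode⟩ := exists_code hG hin
  let F : (ℕ → To (Order.succ (Order.succ κ))) → To (Order.succ κ) := fun e =>
    code0 fun k => code (L1 := PF.L (A := Wo.{u}) (B := To (mu k)) (μ := ℵ₀))
      (L2 := PF.L (A := To (Order.succ (mu k))) (B := To κ) (μ := mu k)) (p k) (φ k e)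
  -- the ultrafilter
  obtain ⟨U, hU⟩ := hex
  have e1 := UF.closed_seq hU hκ0 (fun s => if h : ∀ n, ∃ z, s n = Sum.inr (Sum.inr z) then
    Sum.inr (Sum.inl (F fun n => (h n).choose)) else s 0)
  have e2 := UF.trace hU hκ0 (c := κ) hκ0.le (fun z => Sum.inl z) (fun z => Sum.inr (Sum.inl z))
    (fun a b h => Sum.inl.inj h) (fun a b h => Sum.inl.inj (Sum.inr.inj h))
  have e3 := UF.trace hU hκ0 (c := Order.succ κ) (hκ0.le.trans (Order.le_succ κ))
    (fun z => Sum.inr (Sum.inl z)) (fun z => Sum.inr (Sum.inr z))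
    (fun a b h => Sum.inl.inj (Sum.inr.inj h)) (fun a b h => Sum.inr.inj (Sum.inr.inj h))
  have hinf : Infinite (To κ) := by
    rw [infinite_iff, mk_To]
    exact hκ0.le
  have e4 := UF.inf hU hκ0 (B := To κ) (fun z => Sum.inl z) (fun a b h => Sum.inl.inj h)
  have e5 : ∀ᶠ x : Set _ in (U : Filter (Set (To κ ⊕ (To (Order.succ κ) ⊕
      To (Order.succ (Order.succ κ)))))), #x < κ := hU.small
  obtain ⟨x, hx1, hx2, hx3, hx4, hx5⟩ := (e1.and (e2.and (e3.and (e4.and e5)))).exists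
  have hν : #((fun z : To κ => (Sum.inl z : To κ ⊕ (To (Order.succ κ) ⊕
      To (Order.succ (Order.succ κ))))) ⁻¹' x) < κ :=
    lt_of_le_of_lt (mk_preimage_of_injective _ _ fun a b h => Sum.inl.inj h) hx5
  obtain ⟨k, hk⟩ := exists_seg hν
  have hmu : mu k = Order.succ #((fun z : To κ => (Sum.inl z : To κ ⊕ (To (Order.succ κ) ⊕
      To (Order.succ (Order.succ κ))))) ⁻¹' x) := by
    unfold mu
    rw [hk, max_eq_right hx4]
  have hT : #((fun z : To (Order.succ κ) => (Sum.inr (Sum.inl z) : To κ ⊕ (To (Order.succ κ) ⊕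
      To (Order.succ (Order.succ κ))))) ⁻¹' x) = mu k := by
    rw [hmu]
    exact hx2
  let H : Set (To (Order.succ (Order.succ κ))) := (fun z => Sum.inr (Sum.inr z)) ⁻¹' x
  have hH : #H = #(To (Order.succ (mu k))) := by
    rw [mk_To, ← hT]
    exact hx3
  let I := {e : ℕ → To (Order.succ (Order.succ κ)) // Function.Injective e ∧ ∀ n, e n ∈ H}
  have hF : ∀ e : I, Sum.inr (Sum.inl (F e.1)) ∈ x := by
    rintro ⟨e, he1, he2⟩
    have h1 := hx1 (fun n => Sum.inr (Sum.inr (e n))) he2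
    have h2 : ∀ n, ∃ z, (Sum.inr (Sum.inr (e n)) : To κ ⊕ (To (Order.succ κ) ⊕
        To (Order.succ (Order.succ κ)))) = Sum.inr (Sum.inr z) := fun n => ⟨e n, rfl⟩
    rw [dif_pos h2] at h1
    have h3 : (fun n => (h2 n).choose) = e := by
      funext n
      exact (Sum.inr.inj (Sum.inr.inj (h2 n).choose_spec)).symm
    rw [h3] at h1
    exact h1
  have hpc : PC (PF.L (A := Wo.{u}) (B := To (mu k)) (μ := ℵ₀))
      (PF.L (A := To (Order.succ (mu k))) (B := To κ) (μ := mu k)) (mu k) :=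
    pc_PF hG (le_max_left ℵ₀ #(Iio k)) (To κ)
  have hV : #(range fun i : I => code (L1 := PF.L (A := Wo.{u}) (B := To (mu k)) (μ := ℵ₀))
      (L2 := PF.L (A := To (Order.succ (mu k))) (B := To κ) (μ := mu k)) (p k) (φ k i.1)) ≤ mu k := by
    refine le_trans ?_ hT.le
    refine Cardinal.mk_le_of_injective (f := fun v => ⟨F v.2.choose.1, hF v.2.choose⟩) ?_
    intro v v' hvv
    have h1 : F v.2.choose.1 = F v'.2.choose.1 := congrArg Subtype.val hvv
    have h2 := congrFun (hcode h1) k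
    refine Subtype.ext ?_
    rw [← v.2.choose_spec, ← v'.2.choose_spec]
    exact h2
  obtain ⟨q', δ, hq', hδ⟩ := code_all hpc (I := I) (fun e => φ k e.1) (p k) (q k)
    (fun e => hφ k e.1 e.2.1) hV
  obtain ⟨e, he1, he2, he3⟩ := hbad k q' H δ hq' hH
  exact he3 (hδ ⟨e, he1, he2⟩)

end W61
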