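import Pool.Agent.W_61ad90_h15.Defs
import Pool.Agent.W_MP_315f31_lc.Thm

/-!
# MP_61ad90_lc : normal ultrafilters

`U` is a fine normal `κ`-complete ultrafilter on `Set A` (`DCT.IsFNU`: fields `small`, `fine`, `complete`, `normal`).

`UF.seq`: for every `n`, `{x | g x n ∈ x} ∈ U`, so by `normal` there is `s n` with `{x | g x n = s n} ∈ U`; the
intersection of countably many sets in `U` is in `U` (`complete` for the range, `#(range) ≤ ℵ₀ < κ`).
`UF.closed_seq`: otherwise, for almost all `x` (ultrafilter: `Filter.not_eventually`/`Ultrafilter.eventually_not`)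
there is `s_x` with `s_x n ∈ x` and `F s_x ∉ x`; by `UF.seq` there is `s` with `s_x = s` for almost all `x`, and
`F s ∈ x` for almost all `x` (`fine`), a contradiction.
`UF.closed2`: `UF.closed_seq` for `fun s => F (s 0) (s 1)`.
`UF.inf`: an injection `ℕ → B`; for almost all `x` all its values are in `i ⁻¹' x` (`fine`, `complete`).
`UF.lower`: otherwise for almost all `x` there is an injection `j_x : i2 ⁻¹' x → i1 ⁻¹' x`; for `ξ : B2`, for
almost all `x`, `i2 ξ ∈ x` (`fine`), and `i1 (j_x ξ) ∈ x`; by `normal` there is `j ξ : B1` with `i1 (j_x ξ) = i1 (j ξ)`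
for almost all `x`.  `j : B2 → B1` is injective (for `ξ ≠ η` pick one `x` which is good for both), so
`#B2 ≤ #B1`, a contradiction.
`UF.upper`: choose injections `e_b : Iio b → B1`; almost all `x` are closed under the operation
`(i2 b, i2 η) ↦ i1 (e_b η)` for `η < b` (`closed2`, with any value otherwise).  So for `b ∈ i2 ⁻¹' x` the set
`{η ∈ i2 ⁻¹' x | η < b}` has size at most `#(i1 ⁻¹' x) =: μ`.  A well-order all of whose proper initial segments have
size at most `μ` (`μ` infinite: `UF.inf`) has size at most `μ⁺` (if `μ⁺ < #S`, then `μ⁺.ord < type S`, so there is an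
element whose initial segment has type `μ⁺.ord`: `Ordinal.enum`, `Ordinal.typein`).
`UF.trace`: `UF.lower` and `UF.upper` (`mk_Iio_To`).
-/

universe u

open Cardinal Set

namespace W61

open Pool.Agent.W_MP_315f31_lc

variable {κ : Cardinal.{u}} {A : Type u} {U : Ultrafilter (Set A)}

theorem UF.countable38 (hU : DCT.IsFNU κ U) (hκ : ℵ₀ < κ) {p : ℕ → Set A → Prop}
    (h : ∀ n, ∀ᶠ x in (U : Filter (Set A)), p n x) :
    ∀ᶠ x in (U : Filter (Set A)), ∀ n, p n x := by
  have h1 := hU.complete (Set.range fun n => {x | p n x})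
    (lt_of_le_of_lt (Cardinal.mk_le_aleph0_iff.2 (Set.countable_range _)) hκ) (by
      rintro s ⟨n, rfl⟩
      exact h n)
  refine Filter.mem_of_superset h1 ?_
  intro x hx n
  exact Set.mem_sInter.1 hx _ ⟨n, rfl⟩

/-- Sequences of elements of `x` are constant on a large set. -/
theorem UF.seq (hU : DCT.IsFNU κ U) (hκ : ℵ₀ < κ) {g : Set A → ℕ → A}
    (h : ∀ᶠ x in (U : Filter (Set A)), ∀ n, g x n ∈ x) :
    ∃ s : ℕ → A, ∀ᶠ x in (U : Filter (Set A)), ∀ n, g x n = s n := by
  choose s hs using fun n => hU.normal (fun x => g x n) (Filter.Eventually.mono h fun x hx => hx n)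
  exact ⟨s, UF.countable38 hU hκ hs⟩

/-- Almost all `x` are closed under an operation on sequences. -/
theorem UF.closed_seq (hU : DCT.IsFNU κ U) (hκ : ℵ₀ < κ) (F : (ℕ → A) → A) :
    ∀ᶠ x in (U : Filter (Set A)), ∀ s : ℕ → A, (∀ n, s n ∈ x) → F s ∈ x := by
  by_contra hcon
  have h1 : ∀ᶠ x in (U : Filter (Set A)), ¬ ∀ s : ℕ → A, (∀ n, s n ∈ x) → F s ∈ x := by
    rwa [Ultrafilter.eventually_not]
  have h2 : ∀ x : Set A, ∃ s : ℕ → A, (¬ ∀ s : ℕ → A, (∀ n, s n ∈ x) → F s ∈ x) →
      (∀ n, s n ∈ x) ∧ F s ∉ x := by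
    intro x
    by_cases hx : ∀ s : ℕ → A, (∀ n, s n ∈ x) → F s ∈ x
    · have hne : Nonempty A := by
        by_contra hA
        rw [not_nonempty_iff] at hA
        obtain ⟨y, hy⟩ := h1.exists
        exact hy fun s _ => (hA.false (s 0)).elim
      exact ⟨fun _ => hne.some, fun hn => absurd hx hn⟩
    · have hx2 := hx
      push Not at hx2
      obtain ⟨s, hs1, hs2⟩ := hx2
      exact ⟨s, fun _ => ⟨hs1, hs2⟩⟩
  choose g hg using h2
  obtain ⟨s, hs⟩ := UF.seq hU hκ (g := g) (h1.mono fun x hx => (hg x hx).1)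
  obtain ⟨x, ⟨hx1, hx2⟩, hx3⟩ := ((h1.and hs).and (hU.fine (F s))).exists
  have hgs : g x = s := funext hx2
  have h3 := (hg x hx1).2
  rw [hgs] at h3
  exact h3 hx3

theorem UF.closed2 (hU : DCT.IsFNU κ U) (hκ : ℵ₀ < κ) (F : A → A → A) :
    ∀ᶠ x in (U : Filter (Set A)), ∀ a ∈ x, ∀ b ∈ x, F a b ∈ x := by
  have h := UF.closed_seq hU hκ (fun s => F (s 0) (s 1))
  refine h.mono fun x hx a ha b hb => ?_
  have h2 := hx (fun n => if n = 0 then a else b) (fun n => by
    by_cases hn : n = 0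
    · simp [hn, ha]
    · simp [hn, hb])
  simpa using h2

theorem UF.inf (hU : DCT.IsFNU κ U) (hκ : ℵ₀ < κ) {B : Type u} [Infinite B] (i : B → A)
    (hi : Function.Injective i) : ∀ᶠ x in (U : Filter (Set A)), ℵ₀ ≤ #(i ⁻¹' x) := by
  have e : ℕ ↪ B := Infinite.natEmbedding B
  have h := UF.countable38 hU hκ (p := fun n x => i (e n) ∈ x) (fun n => hU.fine (i (e n)))
  refine h.mono fun x hx => ?_
  have hinf : Infinite (i ⁻¹' x) :=
    Infinite.of_injective (fun n => (⟨e n, hx n⟩ : i ⁻¹' x)) (fun m n hmn => by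
      have := congrArg Subtype.val hmn
      exact e.injective this)
  exact Cardinal.aleph0_le_mk _

end W61
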